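import Pool.Agent.Work.MP_23451d_qt.Interface

/-!
# Block BOTG: the bottleneck property for walks of a graph with a Lipschitz map to a quasi-tree
-/

set_option autoImplicit false

namespace Pool.L2Q

open MeasureTheory SimpleGraph Pool.L2B
open scoped ENNReal

namespace BOTG

/-- a walk which follows the image of a walk -/
theorem follow {V : Type} {G : SimpleGraph V} {Q : Type} {H : SimpleGraph Q} (hc : H.Connected)
    (π : V → Q) (lam : ℕ) (hl : ∀ x y, G.Adj x y → H.dist (π x) (π y) ≤ lam) {x y : V}
    (w : G.Walk x y) :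
    ∃ W : H.Walk (π x) (π y), ∀ c ∈ W.support, ∃ v ∈ w.support, H.dist c (π v) ≤ lam := by
  classical
  induction w with
  | nil =>
    refine ⟨Walk.nil, fun c hcs => ?_⟩
    rw [Walk.support_nil, List.mem_singleton] at hcs
    refine ⟨_, Walk.start_mem_support _, ?_⟩
    rw [hcs, SimpleGraph.dist_self]
    exact Nat.zero_le _
  | @cons a b e h p ih =>
    obtain ⟨W, hW⟩ := ih
    obtain ⟨A, hA⟩ := hc.exists_walk_length_eq_dist (π a) (π b)
    refine ⟨A.append W, fun c hcs => ?_⟩
    rw [Walk.mem_support_append_iff] at hcs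
    rcases hcs with h1 | h1
    · refine ⟨a, Walk.start_mem_support _, ?_⟩
      have h2 := H.dist_le (A.takeUntil c h1)
      have h3 : (A.takeUntil c h1).length ≤ A.length := A.length_takeUntil_le_length h1
      have h4 := hl a b h
      rw [H.dist_comm]
      omega
    · obtain ⟨v, hv, hd⟩ := hW c h1
      exact ⟨v, by rw [Walk.support_cons]; exact List.mem_cons_of_mem _ hv, hd⟩

end BOTG

theorem stmt_BOTG : Stmt_BOTG := by
  intro V G Q H hc Δ hbot π lam hl x y w t ht
  obtain ⟨z, z1, z2, z3⟩ := hbot (π x) (π y) t ht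
  obtain ⟨W, hW⟩ := BOTG.follow hc π lam hl w
  obtain ⟨c, hcs, hcz⟩ := z3 W
  obtain ⟨v, hv, hd⟩ := hW c hcs
  refine ⟨v, hv, ?_, ?_⟩
  · have e1 := hc.dist_triangle (u := π x) (v := z) (w := π v)
    have e2 := hc.dist_triangle (u := z) (v := c) (w := π v)
    have e3 := H.dist_comm (u := z) (v := c)
    omega
  · have e1 := hc.dist_triangle (u := π v) (v := c) (w := π y)
    have e2 := hc.dist_triangle (u := c) (v := z) (w := π y)
    have e3 := H.dist_comm (u := π v) (v := c)
    omega

end Pool.L2Q
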