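import Pool.Agent.Work.MP_23451d_qt.Interface

/-!
# Block CNC (MP_23451d_pr): concatenation
-/

set_option autoImplicit false

namespace Pool.L2Q

theorem stmt_CNC : Stmt_CNC := by
  intro V G ρ d lam δ Δ K hC x w c g h1 h2 h3
  unfold gp at h1 h2
  unfold cL at h3
  have a1 := hC.hyp x c g w
  have s1 := hC.symm x w
  have s2 := hC.symm c w
  have s3 := hC.symm g w
  have s4 := hC.symm x c
  omega

end Pool.L2Q
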