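import Pool.Agent.Work.MP_23451d_qt.Interface

/-!
# Block CORX: the coarse geometry
-/

set_option autoImplicit false

namespace Pool.L2Q

open MeasureTheory SimpleGraph Pool.L2B
open scoped ENNReal

theorem stmt_CORX (hFOUR : Stmt_FOUR) (hBOTG : Stmt_BOTG) : Stmt_CORX := by
  classical
  intro V G hG hfin Γ _ _ hact hF Q H _ hH hHact hBot π hπ
  have hle : ∀ (γ : Γ) (a b : Q), H.dist (γ • a) (γ • b) ≤ H.dist a b := by
    intro γ a b
    obtain ⟨w, hw⟩ := hH.exists_walk_length_eq_dist a b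
    let φ : H →g H := ⟨fun x => γ • x, fun {a b} h => hHact γ a b h⟩
    have h1 := SimpleGraph.dist_le (w.map φ)
    rw [SimpleGraph.Walk.length_map, hw] at h1
    exact h1
  have hinv : ∀ (γ : Γ) (a b : Q), H.dist (γ • a) (γ • b) = H.dist a b := by
    intro γ a b
    refine le_antisymm (hle γ a b) ?_
    have h1 := hle γ⁻¹ (γ • a) (γ • b)
    rwa [inv_smul_smul, inv_smul_smul] at h1
  have hπd : ∀ (γ : Γ) (x y : V), H.dist (π (γ • x)) (π (γ • y)) = H.dist (π x) (π y) := by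
    intro γ x y
    rw [hπ, hπ, hinv]
  refine ⟨hπd, ?_⟩
  obtain ⟨F, hF⟩ := hF
  obtain ⟨Δ, hΔ⟩ := hBot
  set lam : ℕ := F.sup fun u => (hfin u).toFinset.sup fun x => H.dist (π u) (π x) with hlam
  have hlip : ∀ x y, G.Adj x y → H.dist (π x) (π y) ≤ lam := by
    intro x y hxy
    obtain ⟨γ, u, hu, rfl⟩ := hF x
    have h1 : G.Adj u (γ⁻¹ • y) := by
      have := hact γ⁻¹ _ _ hxy
      rwa [inv_smul_smul] at this
    have h2 : H.dist (π (γ • u)) (π y) = H.dist (π u) (π (γ⁻¹ • y)) := by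
      rw [← hπd γ u (γ⁻¹ • y), smul_inv_smul]
    rw [h2]
    have h3 : H.dist (π u) (π (γ⁻¹ • y)) ≤
        (hfin u).toFinset.sup fun x => H.dist (π u) (π x) :=
      Finset.le_sup (f := fun x => H.dist (π u) (π x)) ((Set.Finite.mem_toFinset _).2 h1)
    exact h3.trans (Finset.le_sup
      (f := fun u => (hfin u).toFinset.sup fun x => H.dist (π u) (π x)) hu)
  refine ⟨(F.sup fun u => (G.neighborSet u).ncard) + 1, lam, 4 * Δ + 1, Δ + lam, ?_⟩
  refine ⟨hG, ?_, by omega, ?_, ?_, ?_, ?_, hlip, ?_⟩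
  · intro v
    refine ⟨hfin v, ?_⟩
    obtain ⟨γ, u, hu, rfl⟩ := hF v
    have h1 : G.neighborSet (γ • u) ⊆ (fun x => γ • x) '' G.neighborSet u := by
      intro y hy
      refine ⟨γ⁻¹ • y, ?_, smul_inv_smul γ y⟩
      have := hact γ⁻¹ _ _ hy
      rwa [inv_smul_smul] at this
    have h2 : (G.neighborSet (γ • u)).ncard ≤ ((fun x => γ • x) '' G.neighborSet u).ncard :=
      Set.ncard_le_ncard h1 ((hfin u).image _)
    have h3 := Set.ncard_image_le (f := fun x => γ • x) (hfin u)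
    have h4 : (G.neighborSet u).ncard ≤ F.sup fun u => (G.neighborSet u).ncard :=
      Finset.le_sup (f := fun u => (G.neighborSet u).ncard) hu
    omega
  · intro x
    exact SimpleGraph.dist_self
  · intro x y
    exact SimpleGraph.dist_comm
  · intro x y z
    exact hH.dist_triangle
  · intro x y z w
    exact hFOUR Q H hH Δ hΔ (π x) (π y) (π z) (π w)
  · intro x y w t ht
    exact hBOTG V G Q H hH Δ hΔ π lam hlip x y w t ht

end Pool.L2Q
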