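import Pool.Agent.Work.MP_23451d_qt.Interface

/-! Block DCY: exponential decay along the quasi-tree. -/

set_option autoImplicit false

namespace Pool.L2Q

open SimpleGraph Pool.L2B
open scoped ENNReal

namespace DCYAux

variable {V : Type}

/-- sum over a subset as a sum of indicators -/
theorem sub_ind (A : Set V) (f : V → ℝ≥0∞) : ∑' v : A, f v.1 = ∑' v, A.indicator f v :=
  tsum_subtype A f

theorem mono (A B : Set V) (h : A ⊆ B) (f : V → ℝ≥0∞) : ∑' v : A, f v.1 ≤ ∑' v : B, f v.1 :=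
  ENNReal.tsum_mono_subtype f h

/-- disjoint subsets -/
theorem disj (n : ℕ) (S : ℕ → Set V) (W : Set V) (hS : ∀ k, S k ⊆ W)
    (hd : ∀ k l v, v ∈ S k → v ∈ S l → k = l) (f : V → ℝ≥0∞) :
    ∑ k ∈ Finset.range n, ∑' v : S k, f v.1 ≤ ∑' v : W, f v.1 := by
  have e1 : ∑ k ∈ Finset.range n, ∑' v : S k, f v.1 =
      ∑' v, ∑ k ∈ Finset.range n, (S k).indicator f v := by
    rw [Summable.tsum_finsetSum (fun k _ => ENNReal.summable)]
    exact Finset.sum_congr rfl (fun k _ => sub_ind (S k) f)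
  rw [e1, sub_ind W f]
  refine ENNReal.tsum_le_tsum (fun v => ?_)
  by_cases h : ∃ k ∈ Finset.range n, v ∈ S k
  · obtain ⟨k, hk, hv⟩ := h
    rw [Finset.sum_eq_single_of_mem k hk (fun l _ hl => Set.indicator_of_notMem
      (fun hv' => hl (hd l k v hv' hv)) f), Set.indicator_of_mem hv,
      Set.indicator_of_mem (hS k hv)]
  · push Not at h
    rw [Finset.sum_eq_zero (fun k hk => Set.indicator_of_notMem (h k hk) f)]
    exact bot_le

/-- one of `n` numbers is at most the average -/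
theorem pick (n : ℕ) (hn : 1 ≤ n) (g : ℕ → ℝ≥0∞) (X : ℝ≥0∞) (h : ∑ k ∈ Finset.range n, g k ≤ X) :
    ∃ k < n, n * g k ≤ X := by
  obtain ⟨k, hk, hmin⟩ := Finset.exists_min_image (Finset.range n) g
    ⟨0, Finset.mem_range.2 (by omega)⟩
  refine ⟨k, Finset.mem_range.1 hk, le_trans ?_ h⟩
  have := Finset.card_nsmul_le_sum (Finset.range n) g (g k) (fun l hl => hmin l hl)
  rwa [Finset.card_range, nsmul_eq_mul] at this

/-- a natural number which beats a constant -/
theorem big (a X : ℝ≥0∞) (ha : a ≠ 0) (hX : X ≠ ⊤) : ∃ n : ℕ, 1 ≤ n ∧ X ≤ n * a := by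
  rcases eq_or_ne a ⊤ with h | h
  · refine ⟨1, le_refl 1, ?_⟩
    rw [h]; simp
  · obtain ⟨n, hn⟩ := ENNReal.exists_nat_mul_gt ha hX
    refine ⟨n + 1, by omega, le_trans hn.le ?_⟩
    push_cast
    gcongr
    exact le_self_add

end DCYAux

open DCYAux in
theorem stmt_DCY (hF : Stmt_FXZ) : Stmt_DCY := by
  intro V G ρ d lam δ Δ K E₀ D M Ψ hG p₀ hp₀
  have hC := hG.cor
  have ha : p₀ ^ D ≠ 0 := pow_ne_zero _ hp₀
  obtain ⟨n₁, hn₁, hbig⟩ := big (p₀ ^ D) (2 * (d * (4 * M))) ha (by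
    exact ENNReal.mul_ne_top (by simp) (ENNReal.mul_ne_top (by simp)
      (ENNReal.mul_ne_top (by simp) (by simp))))
  refine ⟨n₁ * (2 * cD δ Δ + 1) + cD δ Δ + (2 * Δ + 2 * δ), ?_, ?_⟩
  · nlinarith
  intro τ hτ n
  have hbase : ∀ x z : V, p₀ ^ D * ∑' w : {w : V | ρ w z ≤ 2 * Δ + 2 * δ}, τ x w.1 ≤ 4 * M := by
    intro x z
    refine le_trans ?_ (hF V G ρ d lam δ Δ K E₀ D M Ψ hG p₀ τ hτ x z)
    gcongr
    refine mono _ _ ?_ _
    intro w hw
    simp only [Set.mem_ofPred_eq] at hw ⊢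
    have h1 := hC.tri x z w
    have h2 := hC.symm z w
    unfold cD
    omega
  induction n with
  | zero =>
    intro x z _
    rw [pow_zero, mul_one]
    exact hbase x z
  | succ n ih =>
    intro x z hxz
    set s := 2 * cD δ Δ + 1 with hs
    have hcD : cD δ Δ = 5 * Δ + 4 * δ := rfl
    -- the slabs
    have hsum := disj n₁ (fun k => {v : V | ρ x v ≤ (k + 1) * s + cD δ Δ ∧
        ρ v z + (k + 1) * s ≤ ρ x z + cD δ Δ})
      {w : V | ρ x w + ρ w z ≤ ρ x z + 2 * cD δ Δ} (by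
        intro k v hv
        simp only [Set.mem_ofPred_eq] at hv ⊢
        omega) (by
        intro k l v hv hv'
        simp only [Set.mem_ofPred_eq] at hv hv'
        have h1 := hC.tri x v z
        rcases lt_trichotomy k l with h | h | h
        · exfalso
          have h2 : (k + 1) * s + s ≤ (l + 1) * s := by nlinarith
          omega
        · exact h
        · exfalso
          have h2 : (l + 1) * s + s ≤ (k + 1) * s := by nlinarith
          omega) (τ x)
    obtain ⟨k, hk, hkX⟩ := pick n₁ hn₁ _ _ hsum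
    set t := (k + 1) * s with ht
    set S : Set V := {v : V | ρ x v ≤ t + cD δ Δ ∧ ρ v z + t ≤ ρ x z + cD δ Δ} with hSdef
    have htN : t ≤ n₁ * s := by
      rw [ht]; exact Nat.mul_le_mul_right _ hk
    have hxz' : n * (n₁ * s + cD δ Δ + (2 * Δ + 2 * δ)) + (n₁ * s + cD δ Δ + (2 * Δ + 2 * δ)) ≤
        ρ x z := by
      rw [← Nat.succ_mul]; exact hxz
    -- the cut inequality
    have hcut : ∀ w : {w : V | ρ w z ≤ 2 * Δ + 2 * δ},
        τ x w.1 ≤ d * ∑' v : S, τ x v.1 * τ v.1 w.1 := by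
      intro w
      have hw : ρ w.1 z ≤ 2 * Δ + 2 * δ := w.2
      refine hτ.cut S x w.1 (fun W => ?_)
      have h1 := hC.tri x w.1 z
      obtain ⟨v, hv, h2, h3⟩ := hC.bot x w.1 W t (by omega)
      refine ⟨v, hv, ?_, ?_⟩
      · omega
      · have h4 := hC.tri v w.1 z
        have h5 := hC.tri x z w.1
        have h6 := hC.symm z w.1
        omega
    have hU : ∑' w : {w : V | ρ w z ≤ 2 * Δ + 2 * δ}, τ x w.1 ≤
        d * ∑' v : S, τ x v.1 * ∑' w : {w : V | ρ w z ≤ 2 * Δ + 2 * δ}, τ v.1 w.1 := by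
      refine le_trans (ENNReal.tsum_le_tsum hcut) ?_
      rw [ENNReal.tsum_mul_left, ENNReal.tsum_comm]
      refine le_of_eq ?_
      congr 1
      exact tsum_congr (fun v => ENNReal.tsum_mul_left)
    have hV : p₀ ^ D * ∑' w : {w : V | ρ w z ≤ 2 * Δ + 2 * δ}, τ x w.1 ≤
        d * ((∑' v : S, τ x v.1) * (4 * M * (1 / 2) ^ n)) := by
      calc p₀ ^ D * ∑' w : {w : V | ρ w z ≤ 2 * Δ + 2 * δ}, τ x w.1
          ≤ p₀ ^ D * (d * ∑' v : S, τ x v.1 *
              ∑' w : {w : V | ρ w z ≤ 2 * Δ + 2 * δ}, τ v.1 w.1) := by gcongr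
        _ = d * ∑' v : S, τ x v.1 *
              (p₀ ^ D * ∑' w : {w : V | ρ w z ≤ 2 * Δ + 2 * δ}, τ v.1 w.1) := by
            rw [← mul_assoc, mul_comm (p₀ ^ D) (d : ℝ≥0∞), mul_assoc, ← ENNReal.tsum_mul_left]
            congr 1
            exact tsum_congr (fun v => by ring)
        _ ≤ d * ∑' v : S, τ x v.1 * (4 * M * (1 / 2) ^ n) := by
            refine mul_le_mul' le_rfl (ENNReal.tsum_le_tsum (fun v => mul_le_mul' le_rfl
              (ih v.1 z ?_)))
            have h1 := hC.tri x v.1 z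
            have h2 := v.2.1
            omega
        _ = _ := by rw [ENNReal.tsum_mul_right]
    -- combine
    have hX := hF V G ρ d lam δ Δ K E₀ D M Ψ hG p₀ τ hτ x z
    have h1 : p₀ ^ D * (n₁ * ∑' v : S, τ x v.1) ≤ 4 * M := le_trans (by gcongr) hX
    rcases Nat.eq_zero_or_pos M with hM | hM
    · have h2 := hbase x z
      rw [hM, Nat.cast_zero, mul_zero] at h2
      exact le_trans h2 bot_le
    set U := ∑' w : {w : V | ρ w z ≤ 2 * Δ + 2 * δ}, τ x w.1 with hUdef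
    have hd0 : (d : ℝ≥0∞) * (4 * M) ≠ 0 := by
      have := hC.hd
      exact mul_ne_zero (by exact_mod_cast (by omega : d ≠ 0))
        (mul_ne_zero (by norm_num) (by exact_mod_cast hM.ne'))
    have hdt : (d : ℝ≥0∞) * (4 * M) ≠ ⊤ :=
      ENNReal.mul_ne_top (by simp) (ENNReal.mul_ne_top (by simp) (by simp))
    have h3 : (d * (4 * M)) * (2 * (p₀ ^ D * U)) ≤ (d * (4 * M)) * (4 * M * (1 / 2) ^ n) := by
      calc (d * (4 * M)) * (2 * (p₀ ^ D * U)) = (2 * (d * (4 * M))) * (p₀ ^ D * U) := by ring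
        _ ≤ (n₁ * p₀ ^ D) * (d * ((∑' v : S, τ x v.1) * (4 * M * (1 / 2) ^ n))) := by gcongr
        _ = d * (p₀ ^ D * (n₁ * ∑' v : S, τ x v.1)) * (4 * M * (1 / 2) ^ n) := by ring
        _ ≤ d * (4 * M) * (4 * M * (1 / 2) ^ n) := by gcongr
    have h4 : 2 * (p₀ ^ D * U) ≤ 4 * M * (1 / 2) ^ n := by
      rwa [ENNReal.mul_le_mul_iff_right hd0 hdt] at h3
    calc p₀ ^ D * U = (1 / 2) * (2 * (p₀ ^ D * U)) := by
          rw [← mul_assoc, one_div, ENNReal.inv_mul_cancel (by norm_num) (by simp), one_mul]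
      _ ≤ (1 / 2) * (4 * M * (1 / 2) ^ n) := by gcongr
      _ = 4 * M * (1 / 2) ^ (n + 1) := by rw [pow_succ]; ring

end Pool.L2Q
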