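import Pool.Agent.Work.MP_23451d_qt.Interface

/-!
# DST: lower bound of the two-point function by the graph distance (MP_23451d_pr)
-/

set_option autoImplicit false

namespace Pool.L2Q

open MeasureTheory SimpleGraph Pool.L2B
open scoped ENNReal

theorem stmt_DST : Stmt_DST := by
  intro V G hG d p₀ τ hK x y
  have hw : ∀ (a b : V) (w : G.Walk a b), p₀ ^ w.length ≤ τ a b := by
    intro a b w
    induction w with
    | nil => simp [hK.refl]
    | @cons u v t hadj w ih =>
      calc p₀ ^ (Walk.cons hadj w).length = p₀ * p₀ ^ w.length := by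
            rw [Walk.length_cons, pow_succ, mul_comm]
        _ ≤ τ u v * τ v t := mul_le_mul' (hK.edge u v hadj) ih
        _ ≤ τ u t := hK.har u v t
  obtain ⟨w, hlen⟩ := hG.exists_walk_length_eq_dist x y
  rw [← hlen]
  exact hw x y w

end Pool.L2Q
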