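import Pool.Agent.Work.MP_23451d_me.Final

/-!
# Percolation on graphs with a WPD action on a quasi-tree (MP_23451d_pr): definitions
-/

set_option autoImplicit false

namespace Pool.L2Q

open MeasureTheory SimpleGraph Pool.L2B
open scoped ENNReal

/-- the bottleneck property of a graph (Manning: the graph is a quasi-tree): for all `a`, `b` and
`t ≤ dist a b` there is a point at distance `t` from `a` on a geodesic from `a` to `b` such that all
walks from `a` to `b` pass at distance at most `Δ` from it -/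
def Bot {Q : Type} (H : SimpleGraph Q) (Δ : ℕ) : Prop :=
  ∀ (a b : Q) (t : ℕ), t ≤ H.dist a b → ∃ z : Q, H.dist a z = t ∧ H.dist z b + t = H.dist a b ∧
    ∀ w : H.Walk a b, ∃ c ∈ w.support, H.dist c z ≤ Δ

/-- the coarse geometry of the graph `G` with the pseudometric `ρ` of a quasi-tree -/
structure Cor {V : Type} (G : SimpleGraph V) (ρ : V → V → ℕ) (d lam δ Δ : ℕ) : Prop where
  conn : G.Connected
  deg : ∀ v, (G.neighborSet v).Finite ∧ (G.neighborSet v).ncard ≤ d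
  hd : 1 ≤ d
  self : ∀ x, ρ x x = 0
  symm : ∀ x y, ρ x y = ρ y x
  tri : ∀ x y z, ρ x z ≤ ρ x y + ρ y z
  hyp : ∀ x y z w, ρ x y + ρ z w ≤ ρ x z + ρ y w + δ ∨ ρ x y + ρ z w ≤ ρ x w + ρ y z + δ
  lip : ∀ x y, G.Adj x y → ρ x y ≤ lam
  bot : ∀ (x y : V) (w : G.Walk x y) (t : ℕ), t ≤ ρ x y →
    ∃ v ∈ w.support, ρ x v ≤ t + Δ ∧ ρ v y + t ≤ ρ x y + Δ

/-- the Gromov product of `x` and `y` at `w` is at most `K` -/
def gp {V : Type} (ρ : V → V → ℕ) (w x y : V) (K : ℕ) : Prop := ρ w x + ρ w y ≤ ρ x y + 2 * K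

/-- extension data: for every vertex `w` and every template start `s` there are four automorphisms
`Ψ w s i` which move `s` near `w` in four directions, with finiteness property of WPD type -/
structure Ext {V : Type} (G : SimpleGraph V) (ρ : V → V → ℕ) (K L₀ E₀ E D M : ℕ)
    (Ψ : V → V → Fin 4 → (G ≃g G)) : Prop where
  pres : ∀ w s i x y, ρ (Ψ w s i x) (Ψ w s i y) = ρ x y
  near : ∀ w s i, G.dist w (Ψ w s i s) ≤ D
  long : ∀ w s i, L₀ ≤ ρ w (Ψ w s i s)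
  len : ∀ w w' s i, ρ w (Ψ w s i s) ≤ ρ w' (Ψ w' s i s) + E₀
  past : ∀ w s a i j, i ≠ j → gp ρ w a (Ψ w s i s) K ∨ gp ρ w a (Ψ w s j s) K
  fut : ∀ w s b i j, i ≠ j →
    gp ρ (Ψ w s i s) w (Ψ w s i b) K ∨ gp ρ (Ψ w s j s) w (Ψ w s j b) K
  fin : ∀ s i p₁ p₂, {w | ρ w p₁ ≤ E ∧ ρ (Ψ w s i s) p₂ ≤ E}.Finite ∧
    {w | ρ w p₁ ≤ E ∧ ρ (Ψ w s i s) p₂ ≤ E}.ncard ≤ M

/-- the constant `L₀` -/
def cL (K δ : ℕ) : ℕ := 2 * K + δ + 1

/-- the width of the slabs -/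
def cD (δ Δ : ℕ) : ℕ := 5 * Δ + 4 * δ

/-- the precision of the decoding -/
def cB (K δ Δ : ℕ) : ℕ := 4 * K + δ + cD δ Δ

/-- the constant `E` -/
def cE (K δ Δ E₀ : ℕ) : ℕ := 8 * K + 3 * δ + E₀ + cB K δ Δ

/-- coarse geometry with extension data -/
structure Geo {V : Type} (G : SimpleGraph V) (ρ : V → V → ℕ) (d lam δ Δ K E₀ D M : ℕ)
    (Ψ : V → V → Fin 4 → (G ≃g G)) : Prop where
  cor : Cor G ρ d lam δ Δ
  ext : Ext G ρ K (cL K δ) E₀ (cE K δ Δ E₀) D M Ψ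

/-- the properties of the two-point function used in the analytic part -/
structure Ker {V : Type} (G : SimpleGraph V) (d : ℕ) (p₀ : ℝ≥0∞) (τ : V → V → ℝ≥0∞) : Prop where
  refl : ∀ x, τ x x = 1
  le_one : ∀ x y, τ x y ≤ 1
  symm : ∀ x y, τ x y = τ y x
  har : ∀ x y z, τ x y * τ y z ≤ τ x z
  inv : ∀ (φ : G ≃g G) (x y : V), τ (φ x) (φ y) = τ x y
  edge : ∀ x y, G.Adj x y → p₀ ≤ τ x y
  cut : ∀ (Z : Set V) (x y : V), (∀ w : G.Walk x y, ∃ v ∈ w.support, v ∈ Z) →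
    τ x y ≤ d * ∑' v : Z, τ x v.1 * τ v.1 y
  fin : ∀ x, ∑' y, τ x y ≠ ⊤

/-- an admissible concatenation `x, w, c, g` which also leaves the direction of `z` at `w` -/
def Adm {V : Type} (ρ : V → V → ℕ) (K L₀ : ℕ) (x z w c g : V) : Prop :=
  gp ρ w x c K ∧ gp ρ w z c K ∧ gp ρ c w g K ∧ L₀ ≤ ρ w c

/-- the element `a` is `R`-WPD: the set of the `h` which move `o` and `a o` by at most `R` has finite
orbits on `V`; here `r` is the left invariant pseudometric on the group `Γ` given by the orbit of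
`o` -/
def FO {Γ V : Type} [Group Γ] [MulAction Γ V] (r : Γ → Γ → ℕ) (R : ℕ) (a : Γ) : Prop :=
  ∀ x : V, {y : V | ∃ h : Γ, r 1 h ≤ R ∧ r a (h * a) ≤ R ∧ h • x = y}.Finite

end Pool.L2Q
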