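import Pool.Agent.Work.MP_23451d_qt.Interface

/-!
# Block EXB (MP_23451d_pr, WPD actions on quasi-trees): the extension data
-/

set_option autoImplicit false

namespace Pool.L2Q

open MeasureTheory SimpleGraph Pool.L2B
open scoped ENNReal

/-- the automorphism given by a group element -/
def exbAut {V : Type} (G : SimpleGraph V) {Γ : Type} [Group Γ] [MulAction Γ V]
    (h : ∀ (γ : Γ) (x y : V), G.Adj x y → G.Adj (γ • x) (γ • y)) (γ : Γ) : G ≃g G where
  toEquiv := MulAction.toPerm γ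
  map_rel_iff' := by
    intro a b
    constructor
    · intro hab
      have h1 := h γ⁻¹ _ _ hab
      simpa using h1
    · intro hab
      exact h γ _ _ hab

theorem exb_dist {V : Type} (G : SimpleGraph V) (hconn : G.Connected) (φ : G ≃g G) (a b : V) :
    G.dist (φ a) (φ b) ≤ G.dist a b := by
  obtain ⟨p, hp⟩ := hconn.exists_walk_length_eq_dist a b
  rw [← hp, ← SimpleGraph.Walk.length_map φ.toHom p]
  exact SimpleGraph.dist_le _

theorem stmt_EXB : Stmt_EXB := by
  intro V G ρ d lam δ Δ hcor Γ _ _ hG hFrep hρ x₀ κ₁ hyp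
  classical
  obtain ⟨F, hF⟩ := hFrep
  choose gam uu huF hgu using hF
  obtain ⟨RU, hRU⟩ : ∃ RU : ℕ, ∀ u ∈ F, ρ x₀ u ≤ RU :=
    ⟨F.sup (ρ x₀), fun u hu => Finset.le_sup (f := ρ x₀) hu⟩
  have hsymm := hcor.symm
  have htri := hcor.tri
  set K : ℕ := δ + κ₁ + 3 * RU with hK
  set E₀ : ℕ := 4 * RU with hE₀
  set E : ℕ := cE K δ Δ E₀ with hE
  obtain ⟨Fi, hlong, hpast, hfut, hFO⟩ := hyp (cL K δ + 2 * E + 2 * RU)
  obtain ⟨D, hD⟩ : ∃ D : ℕ, ∀ (i : Fin 4), ∀ u ∈ F, ∀ u' ∈ F, G.dist u (Fi i • u') ≤ D := by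
    refine ⟨((Finset.univ : Finset (Fin 4)) ×ˢ (F ×ˢ F)).sup
      (fun t => G.dist t.2.1 (Fi t.1 • t.2.2)), ?_⟩
    intro i u hu u' hu'
    exact Finset.le_sup (f := fun t : Fin 4 × (V × V) => G.dist t.2.1 (Fi t.1 • t.2.2))
      (b := (i, (u, u'))) (by simp [hu, hu'])
  -- comparison of the points `p`, `a q` with `x₀`, `a x₀`
  have hcmp : ∀ (a : Γ) (p q : V), ρ x₀ p ≤ RU → ρ x₀ q ≤ RU →
      ρ p (a • q) ≤ ρ x₀ (a • x₀) + 2 * RU ∧ ρ x₀ (a • x₀) ≤ ρ p (a • q) + 2 * RU := by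
    intro a p q hp hq
    have h1 := htri p x₀ (a • q)
    have h2 := htri x₀ (a • x₀) (a • q)
    have h3 := hρ a x₀ q
    have h4 := htri x₀ p (a • x₀)
    have h5 := htri p (a • q) (a • x₀)
    have h6 := hρ a q x₀
    have h7 := hsymm p x₀
    have h8 := hsymm q x₀
    constructor <;> omega
  have hpair : ∀ (a b : Γ) (p q : V), ρ x₀ p ≤ RU → ρ x₀ q ≤ RU →
      ρ x₀ (a • x₀) + ρ x₀ (b • x₀) ≤ ρ (a • x₀) (b • x₀) + 2 * κ₁ →
      ρ p (a • q) + ρ p (b • q) ≤ ρ (a • q) (b • q) + 2 * κ₁ + 6 * RU := by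
    intro a b p q hp hq hab
    have h1 := (hcmp a p q hp hq).1
    have h2 := (hcmp b p q hp hq).1
    have h3 := htri (a • x₀) (a • q) (b • x₀)
    have h4 := htri (a • q) (b • q) (b • x₀)
    have h5 := hρ a x₀ q
    have h6 := hρ b q x₀
    have h8 := hsymm q x₀
    omega
  have hfour : ∀ (o a c c' : V), ρ o c + ρ o c' ≤ ρ c c' + 2 * κ₁ + 6 * RU →
      (ρ o a + ρ o c ≤ ρ a c + 2 * K) ∨ (ρ o a + ρ o c' ≤ ρ a c' + 2 * K) := by
    intro o a c c' h
    have h1 := hcor.hyp a o c c'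
    have h2 := hsymm a o
    rcases h1 with h1 | h1
    · left; omega
    · right; omega
  set Ψ : V → V → Fin 4 → (G ≃g G) :=
    fun w s i => exbAut G hG (gam w * Fi i * (gam s)⁻¹) with hΨ
  have hΨa : ∀ w s i x, Ψ w s i x = (gam w * Fi i * (gam s)⁻¹) • x := fun w s i x => rfl
  have hinvs : ∀ s, (gam s)⁻¹ • s = uu s := by
    intro s
    rw [inv_smul_eq_iff]
    exact (hgu s).symm
  have hΨs : ∀ w s i, Ψ w s i s = gam w • (Fi i • uu s) := by
    intro w s i
    rw [hΨa, mul_smul, mul_smul, hinvs]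
  have hw : ∀ w (y : V), ρ w (gam w • y) = ρ (uu w) y := by
    intro w y
    have h1 := hρ (gam w) (uu w) y
    rw [hgu w] at h1
    exact h1
  have hρΨ : ∀ w s i, ρ w (Ψ w s i s) = ρ (uu w) (Fi i • uu s) := by
    intro w s i
    rw [hΨs, hw]
  refine ⟨K, E₀, D, ∑ i : Fin 4, ∑ u ∈ F, (hFO i u).toFinset.card, Ψ, hcor, ?_⟩
  constructor
  · -- pres
    intro w s i x y
    rw [hΨa, hΨa]
    exact hρ _ x y
  · -- near
    intro w s i
    have h1 : G.dist w (Ψ w s i s) ≤ G.dist (uu w) (Fi i • uu s) := by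
      have h2 := exb_dist G hcor.conn (exbAut G hG (gam w)) (uu w) (Fi i • uu s)
      have h3 : exbAut G hG (gam w) (uu w) = w := hgu w
      have h4 : exbAut G hG (gam w) (Fi i • uu s) = Ψ w s i s := by
        rw [hΨs]; rfl
      rw [h3, h4] at h2
      exact h2
    exact h1.trans (hD i _ (huF w) _ (huF s))
  · -- long
    intro w s i
    have h1 := hlong i
    have h2 := (hcmp (Fi i) (uu w) (uu s) (hRU _ (huF w)) (hRU _ (huF s))).2
    rw [hρΨ]
    omega
  · -- len
    intro w w' s i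
    have h1 := (hcmp (Fi i) (uu w) (uu s) (hRU _ (huF w)) (hRU _ (huF s))).1
    have h2 := (hcmp (Fi i) (uu w') (uu s) (hRU _ (huF w')) (hRU _ (huF s))).2
    rw [hρΨ, hρΨ]
    omega
  · -- past
    intro w s a i j hij
    have h1 := hpair (Fi i) (Fi j) (uu w) (uu s) (hRU _ (huF w)) (hRU _ (huF s)) (hpast i j hij)
    have h2 : ρ (Ψ w s i s) (Ψ w s j s) = ρ (Fi i • uu s) (Fi j • uu s) := by
      rw [hΨs, hΨs]
      exact hρ _ _ _
    rw [← hρΨ w s i, ← hρΨ w s j, ← h2] at h1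
    exact hfour w a _ _ h1
  · -- fut
    intro w s b i j hij
    have h1 := hpair (Fi i)⁻¹ (Fi j)⁻¹ (uu s) (uu w) (hRU _ (huF s)) (hRU _ (huF w))
      (hfut i j hij)
    have he : ∀ (k : Fin 4) (x : V), ρ (Ψ w s k x) w = ρ x (gam s • ((Fi k)⁻¹ • uu w)) := by
      intro k x
      have h3 := hρ (gam w * Fi k * (gam s)⁻¹) x (gam s • ((Fi k)⁻¹ • uu w))
      have h4 : (gam w * Fi k * (gam s)⁻¹) • (gam s • ((Fi k)⁻¹ • uu w)) = w := by
        rw [mul_smul, mul_smul, inv_smul_smul, smul_inv_smul, hgu]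
      rw [h4] at h3
      rw [hΨa]
      exact h3
    have h2 : ρ (gam s • ((Fi i)⁻¹ • uu w)) (gam s • ((Fi j)⁻¹ • uu w)) =
        ρ ((Fi i)⁻¹ • uu w) ((Fi j)⁻¹ • uu w) := hρ _ _ _
    rw [← hw s ((Fi i)⁻¹ • uu w), ← hw s ((Fi j)⁻¹ • uu w), ← h2] at h1
    have h5 := hfour s b _ _ h1
    have hpres : ∀ (k : Fin 4), ρ (Ψ w s k s) (Ψ w s k b) = ρ s b := by
      intro k
      rw [hΨa, hΨa]
      exact hρ _ _ _
    unfold gp
    have e1 := he i s
    have e2 := he j s
    have e3 := he i b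
    have e4 := he j b
    have e5 := hpres i
    have e6 := hpres j
    have e7 := hsymm w (Ψ w s i b)
    have e8 := hsymm w (Ψ w s j b)
    rcases h5 with h5 | h5
    · left; omega
    · right; omega
  · -- fin
    intro s i p₁ p₂
    set A : Set V := {w | ρ w p₁ ≤ E ∧ ρ (Ψ w s i s) p₂ ≤ E} with hA
    have hex : ∀ u : V, ∃ w₀ : V, (∃ w ∈ A, uu w = u) → w₀ ∈ A ∧ uu w₀ = u := by
      intro u
      by_cases h : ∃ w ∈ A, uu w = u
      · obtain ⟨w, hwA, hwu⟩ := h
        exact ⟨w, fun _ => ⟨hwA, hwu⟩⟩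
      · exact ⟨u, fun h' => absurd h' h⟩
    choose w₀ hw₀ using hex
    set T : Finset V := F.biUnion
      (fun u => (hFO i u).toFinset.image (fun y => gam (w₀ u) • y)) with hT
    have hAT : A ⊆ (T : Set V) := by
      intro w hwA
      obtain ⟨h0A, h0u⟩ := hw₀ (uu w) ⟨w, hwA, rfl⟩
      have hwA' : ρ w p₁ ≤ E ∧ ρ (Ψ w s i s) p₂ ≤ E := hwA
      have h0A' : ρ (w₀ (uu w)) p₁ ≤ E ∧ ρ (Ψ (w₀ (uu w)) s i s) p₂ ≤ E := h0A
      set v := w₀ (uu w) with hv
      set h : Γ := (gam v)⁻¹ * gam w with hh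
      have hmem : h • uu w ∈ {y : V | ∃ h : Γ, ρ ((1 : Γ) • x₀) (h • x₀) ≤
          cL K δ + 2 * E + 2 * RU ∧ ρ (Fi i • x₀) ((h * Fi i) • x₀) ≤
          cL K δ + 2 * E + 2 * RU ∧ h • uu w = y} := by
        refine ⟨h, ?_, ?_, rfl⟩
        · rw [one_smul]
          -- rho (h u) u = rho w v
          have a1 : ρ (h • uu w) (uu w) = ρ w v := by
            have b1 := hρ (gam v) (h • uu w) (uu w)
            rw [hh, ← mul_smul, mul_inv_cancel_left, hgu] at b1
            have b2 : gam v • uu w = v := by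
              rw [← h0u]; exact hgu v
            rw [b2] at b1
            rw [hh]
            exact b1.symm
          have a2 := htri w p₁ v
          have a3 := hsymm p₁ v
          have a4 := htri x₀ (uu w) (h • x₀)
          have a5 := htri (uu w) (h • uu w) (h • x₀)
          have a6 := hρ h (uu w) x₀
          have a7 := hRU _ (huF w)
          have a8 := hsymm (uu w) x₀
          have a9 := hsymm (uu w) (h • uu w)
          omega
        · have a1 : ρ ((h * Fi i) • uu s) (Fi i • uu s) = ρ (Ψ w s i s) (Ψ v s i s) := by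
            have b1 := hρ (gam v) ((h * Fi i) • uu s) (Fi i • uu s)
            rw [hh, mul_smul, ← mul_smul, mul_inv_cancel_left] at b1
            rw [hΨs, hΨs, hh, mul_smul]
            exact b1.symm
          have a2 := htri (Ψ w s i s) p₂ (Ψ v s i s)
          have a3 := hsymm p₂ (Ψ v s i s)
          have a4 := htri (Fi i • x₀) (Fi i • uu s) ((h * Fi i) • x₀)
          have a5 := htri (Fi i • uu s) ((h * Fi i) • uu s) ((h * Fi i) • x₀)
          have a6 := hρ (h * Fi i) (uu s) x₀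
          have a7 := hRU _ (huF s)
          have a8 := hsymm (uu s) x₀
          have a9 := hsymm (Fi i • uu s) ((h * Fi i) • uu s)
          have a10 := hρ (Fi i) x₀ (uu s)
          omega
      have hwT : w ∈ T := by
        rw [hT, Finset.mem_biUnion]
        refine ⟨uu w, huF w, ?_⟩
        rw [Finset.mem_image]
        refine ⟨h • uu w, ?_, ?_⟩
        · rw [Set.Finite.mem_toFinset]
          exact hmem
        · show gam v • (h • uu w) = w
          rw [hh, ← mul_smul, mul_inv_cancel_left, hgu]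
      exact Finset.mem_coe.mpr hwT
    have hcard : T.card ≤ ∑ i : Fin 4, ∑ u ∈ F, (hFO i u).toFinset.card := by
      calc T.card ≤ ∑ u ∈ F, ((hFO i u).toFinset.image (fun y => gam (w₀ u) • y)).card :=
            Finset.card_biUnion_le
        _ ≤ ∑ u ∈ F, (hFO i u).toFinset.card := by
            apply Finset.sum_le_sum
            intro u _
            exact Finset.card_image_le
        _ ≤ ∑ i : Fin 4, ∑ u ∈ F, (hFO i u).toFinset.card :=
            Finset.single_le_sum (f := fun i : Fin 4 => ∑ u ∈ F, (hFO i u).toFinset.card)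
              (fun _ _ => Nat.zero_le _) (Finset.mem_univ i)
    refine ⟨T.finite_toSet.subset hAT, ?_⟩
    calc A.ncard ≤ (T : Set V).ncard := Set.ncard_le_ncard hAT T.finite_toSet
      _ = T.card := Set.ncard_coe_finset T
      _ ≤ _ := hcard

end Pool.L2Q
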