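import Pool.Agent.Work.MP_23451d_qt.Interface

/-! # Block FEL (helper83) -/

set_option autoImplicit false

namespace Pool.L2Q

theorem stmt_FEL : Stmt_FEL := by
  classical
  intro Γ V _ _ r δ hself hsymm htri hinv hhyp f g hlox hwpd hind
  obtain ⟨κ, hκ⟩ := hind
  obtain ⟨N, hN⟩ := hlox (2 * κ + δ + 1)
  let k0 : ℕ := N + 1
  let c : Fin 4 → Γ := fun i => f ^ (((i : ℕ) + 1) * k0)
  let h : Fin 4 → Γ := fun i => c i * g
  let CC : ℕ := ∑ i, r 1 (c i)
  let HH : ℕ := ∑ i, r 1 (h i)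
  have hCC : ∀ i, r 1 (c i) ≤ CC := fun i =>
    Finset.single_le_sum (f := fun i => r 1 (c i)) (fun _ _ => Nat.zero_le _) (Finset.mem_univ i)
  have hHH : ∀ i, r 1 (h i) ≤ HH := fun i =>
    Finset.single_le_sum (f := fun i => r 1 (h i)) (fun _ _ => Nat.zero_le _) (Finset.mem_univ i)
  -- distances of the centres
  have hlt : ∀ i j : Fin 4, i < j → 2 * κ + δ + 1 ≤ r (c i) (c j) := by
    intro i j hij
    have h1 : c j = c i * f ^ (((j : ℕ) - (i : ℕ)) * k0) := by
      simp only [c]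
      rw [← pow_add, ← Nat.add_mul]
      congr 2
      have : (i : ℕ) < (j : ℕ) := hij
      omega
    have h2 : r (c i) (c j) = r 1 (f ^ (((j : ℕ) - (i : ℕ)) * k0)) := by
      rw [h1]
      conv_lhs => rw [← mul_one (c i), mul_assoc, one_mul]
      rw [hinv]
    rw [h2]
    refine hN _ ?_
    have h3 : 1 ≤ (j : ℕ) - (i : ℕ) := by
      have : (i : ℕ) < (j : ℕ) := hij
      omega
    calc N ≤ 1 * k0 := by simp only [k0]; omega
      _ ≤ _ := Nat.mul_le_mul_right _ h3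
  have hne : ∀ i j : Fin 4, i ≠ j → 2 * κ + δ + 1 ≤ r (c i) (c j) := by
    intro i j hij
    rcases lt_or_gt_of_ne hij with h1 | h1
    · exact hlt i j h1
    · rw [hsymm]; exact hlt j i h1
  have hz : ∀ i j : Fin 4, ∃ a : ℤ, c i * f ^ a = c j := by
    intro i j
    refine ⟨((((j : ℕ) + 1) * k0 : ℕ) : ℤ) - ((((i : ℕ) + 1) * k0 : ℕ) : ℤ), ?_⟩
    simp only [c]
    rw [← zpow_natCast f, ← zpow_add, ← zpow_natCast f]
    congr 1
    ring
  -- the translated independence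
  have hI : ∀ (i j : Fin 4) (m : ℤ),
      r (c i) (c j) + r (c i) (h i * f ^ m) ≤ r (c j) (h i * f ^ m) + κ := by
    intro i j m
    obtain ⟨a, ha⟩ := hz i j
    have h1 := hκ a m
    have e1 : r 1 (f ^ a) = r (c i) (c j) := by
      rw [← ha]
      conv_rhs => rw [← mul_one (c i), mul_assoc, one_mul]
      rw [hinv]
    have e2 : r 1 (g * f ^ m) = r (c i) (h i * f ^ m) := by
      simp only [h]
      conv_rhs => rw [← mul_one (c i), mul_one, mul_assoc]
      conv_rhs => rw [← mul_one (c i)]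
      rw [mul_assoc, one_mul, hinv]
    have e3 : r (f ^ a) (g * f ^ m) = r (c j) (h i * f ^ m) := by
      rw [← ha]
      simp only [h]
      rw [mul_assoc, hinv]
    rw [e1, e2, e3] at h1
    exact h1
  -- the main claim
  have hmain : ∀ (i j : Fin 4), i ≠ j → ∀ m n : ℤ,
      r 1 (h i * f ^ m) + r 1 (h j * f ^ n) ≤
        r (h i * f ^ m) (h j * f ^ n) + 2 * (κ + δ + CC) := by
    intro i j hij m n
    have h1 := hI i j m
    have h2 := hI j i n
    have h3 := hne i j hij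
    have h4 := htri 1 (c i) (h i * f ^ m)
    have h5 := htri 1 (c j) (h j * f ^ n)
    have h6 := hCC i
    have h7 := hCC j
    have h8 := hsymm (c i) (c j)
    have h9 := hsymm (h i * f ^ m) (c i)
    rcases hhyp (c j) (h i * f ^ m) (c i) (h j * f ^ n) with h10 | h10
    · omega
    · omega
  -- comparison of `F i` and `h i * f ^ n`
  have hcmp : ∀ (i : Fin 4) (x : Γ), r (h i * x * (h i)⁻¹) (h i * x) = r 1 (h i) := by
    intro i x
    have e : r (h i * x * (h i)⁻¹) (h i * x * 1) = r (h i)⁻¹ 1 := hinv _ _ _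
    rw [mul_one] at e
    rw [e, ← hinv (h i), mul_inv_cancel, mul_one]
  have hbnd : ∀ (i j : Fin 4), i ≠ j → ∀ m n : ℤ,
      r 1 (h i * f ^ m * (h i)⁻¹) + r 1 (h j * f ^ n * (h j)⁻¹) ≤
        r (h i * f ^ m * (h i)⁻¹) (h j * f ^ n * (h j)⁻¹) + 2 * (κ + δ + CC + 2 * HH) := by
    intro i j hij m n
    have h1 := hmain i j hij m n
    have h2 := hcmp i (f ^ m)
    have h3 := hcmp j (f ^ n)
    have h4 := htri 1 (h i * f ^ m) (h i * f ^ m * (h i)⁻¹)
    have h5 := htri 1 (h j * f ^ n) (h j * f ^ n * (h j)⁻¹)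
    have h6 := htri (h i * f ^ m) (h i * f ^ m * (h i)⁻¹) (h j * f ^ n)
    have h7 := htri (h i * f ^ m * (h i)⁻¹) (h j * f ^ n * (h j)⁻¹) (h j * f ^ n)
    have h8 := hHH i
    have h9 := hHH j
    have h10 := hsymm (h i * f ^ m * (h i)⁻¹) (h i * f ^ m)
    have h11 := hsymm (h j * f ^ n * (h j)⁻¹) (h j * f ^ n)
    omega
  refine ⟨κ + δ + CC + 2 * HH, fun R => ?_⟩
  obtain ⟨N1, hN1⟩ := hlox (R + 2 * HH)
  obtain ⟨N2, hN2⟩ := hwpd (R + 2 * HH)
  let n : ℕ := N1 + N2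
  refine ⟨fun i => h i * f ^ n * (h i)⁻¹, ?_, ?_, ?_, ?_⟩
  · intro i
    have h1 := hN1 n (Nat.le_add_right _ _)
    have h2 := hcmp i (f ^ n)
    have h3 := htri (h i) 1 (h i * f ^ n)
    have h4 := htri 1 (h i * f ^ n * (h i)⁻¹) (h i * f ^ n)
    have h5 : r (h i) (h i * f ^ n) = r 1 (f ^ n) := by
      have := hinv (h i) 1 (f ^ n)
      rwa [mul_one] at this
    have h6 := hHH i
    have h7 := hsymm (h i) 1
    show R ≤ r 1 (h i * f ^ n * (h i)⁻¹)
    omega
  · intro i j hij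
    have := hbnd i j hij n n
    simpa only [zpow_natCast] using this
  · intro i j hij
    have h1 := hbnd i j hij (-(n : ℤ)) (-(n : ℤ))
    have e : ∀ i : Fin 4, (h i * f ^ n * (h i)⁻¹)⁻¹ = h i * f ^ (-(n : ℤ)) * (h i)⁻¹ := by
      intro i
      rw [zpow_neg, zpow_natCast]
      group
    show r 1 (h i * f ^ n * (h i)⁻¹)⁻¹ + r 1 (h j * f ^ n * (h j)⁻¹)⁻¹ ≤ _
    rw [e i, e j]
    exact h1
  · intro i x
    have hfin := hN2 n (Nat.le_add_left _ _) ((h i)⁻¹ • x)
    refine (hfin.image (fun y => h i • y)).subset ?_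
    rintro y ⟨t, ht1, ht2, rfl⟩
    refine ⟨((h i)⁻¹ * t * h i) • (h i)⁻¹ • x, ⟨(h i)⁻¹ * t * h i, ?_, ?_, rfl⟩, ?_⟩
    · have e1 : r 1 ((h i)⁻¹ * t * h i) = r (h i) (t * h i) := by
        rw [← hinv (h i) 1, mul_one]
        congr 1
        group
      have e2 := htri (h i) 1 (t * h i)
      have e3 := htri 1 t (t * h i)
      have e4 : r t (t * h i) = r 1 (h i) := by
        have := hinv t 1 (h i)
        rwa [mul_one] at this
      have e5 := hsymm (h i) 1
      have e6 := hHH i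
      omega
    · have e1 : r (f ^ n) ((h i)⁻¹ * t * h i * f ^ n) = r (h i * f ^ n) (t * (h i * f ^ n)) := by
        rw [← hinv (h i) (f ^ n)]
        congr 1
        group
      have e2 := htri (h i * f ^ n) (h i * f ^ n * (h i)⁻¹) (t * (h i * f ^ n))
      have e3 := htri (h i * f ^ n * (h i)⁻¹) (t * (h i * f ^ n * (h i)⁻¹)) (t * (h i * f ^ n))
      have e4 := hcmp i (f ^ n)
      have e5 : r (t * (h i * f ^ n * (h i)⁻¹)) (t * (h i * f ^ n)) = r 1 (h i) := by
        rw [hinv, e4]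
      have e6 := hsymm (h i * f ^ n) (h i * f ^ n * (h i)⁻¹)
      have e7 := hHH i
      have e8 : r (h i * f ^ n * (h i)⁻¹) (t * (h i * f ^ n * (h i)⁻¹)) ≤ R := ht2
      omega
    · show h i • ((h i)⁻¹ * t * h i) • (h i)⁻¹ • x = t • x
      rw [smul_smul, smul_smul]
      congr 1
      group

end Pool.L2Q
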