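import Pool.Agent.Work.MP_23451d_qt.Interface

/-!
# Block FOUR: the bottleneck property implies the four point inequality
-/

set_option autoImplicit false

namespace Pool.L2Q

open MeasureTheory SimpleGraph Pool.L2B
open scoped ENNReal

namespace FOUR

/-- a vertex of a geodesic -/
theorem geo {Q : Type} {H : SimpleGraph Q} (hc : H.Connected) {u v : Q} (W : H.Walk u v)
    (hW : W.length = H.dist u v) {c : Q} (h : c ∈ W.support) :
    H.dist u c + H.dist c v = H.dist u v := by
  classical
  have h1 := H.dist_le (W.takeUntil c h)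
  have h2 := H.dist_le (W.dropUntil c h)
  have h3 : (W.takeUntil c h).length + (W.dropUntil c h).length = W.length := by
    rw [← Walk.length_append, Walk.take_spec]
  have h4 := hc.dist_triangle (u := u) (v := c) (w := v)
  omega

theorem near {Q : Type} {H : SimpleGraph Q} (hc : H.Connected) {Δ : ℕ} {w z p x : Q} {t : ℕ}
    (h1 : H.dist w p = t) (h2 : H.dist p z + t = H.dist w z)
    (h3 : ∀ W : H.Walk w z, ∃ c ∈ W.support, H.dist c p ≤ Δ)
    (hx : 2 * t + H.dist x z ≤ H.dist w x + H.dist w z) :
    H.dist p x + t ≤ H.dist w x + 2 * Δ := by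
  obtain ⟨A, hA⟩ := hc.exists_walk_length_eq_dist w x
  obtain ⟨B, hB⟩ := hc.exists_walk_length_eq_dist x z
  obtain ⟨c, hcs, hcp⟩ := h3 (A.append B)
  rw [Walk.mem_support_append_iff] at hcs
  have e1 := H.dist_comm (u := c) (v := p)
  have e2 := hc.dist_triangle (u := p) (v := c) (w := x)
  have e3 := hc.dist_triangle (u := w) (v := c) (w := p)
  have e4 := hc.dist_triangle (u := p) (v := c) (w := z)
  have e5 := H.dist_comm (u := x) (v := c)
  rcases hcs with h | h
  · have := geo hc A hA h
    omega
  · have := geo hc B hB h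
    omega

end FOUR

theorem stmt_FOUR : Stmt_FOUR := by
  intro Q H hc Δ hbot x y z w
  obtain ⟨s1, hs1⟩ : ∃ s1, s1 = (H.dist w x + H.dist w z - H.dist x z) / 2 := ⟨_, rfl⟩
  obtain ⟨s2, hs2⟩ : ∃ s2, s2 = (H.dist w y + H.dist w z - H.dist y z) / 2 := ⟨_, rfl⟩
  have t1 := hc.dist_triangle (u := x) (v := w) (w := z)
  have t2 := hc.dist_triangle (u := y) (v := w) (w := z)
  have t3 := hc.dist_triangle (u := w) (v := z) (w := x)
  have t4 := hc.dist_triangle (u := w) (v := z) (w := y)
  have c1 := H.dist_comm (u := x) (v := w)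
  have c2 := H.dist_comm (u := y) (v := w)
  have c3 := H.dist_comm (u := z) (v := x)
  have c4 := H.dist_comm (u := z) (v := y)
  have c5 := H.dist_comm (u := z) (v := w)
  obtain ⟨p, p1, p2, p3⟩ := hbot w z (min s1 s2) (by omega)
  have n1 := FOUR.near hc p1 p2 p3 (x := x) (by omega)
  have n2 := FOUR.near hc p1 p2 p3 (x := y) (by omega)
  have t5 := hc.dist_triangle (u := x) (v := p) (w := y)
  have c6 := H.dist_comm (u := x) (v := p)
  rcases le_total s1 s2 with h | h
  · left
    omega
  · right
    omega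

end Pool.L2Q
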