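import Pool.Agent.Work.MP_23451d_qt.Interface

/-!
# FXZ: the sum over the neighbourhood of a geodesic of the quasi-tree (MP_23451d_pr)
-/

set_option autoImplicit false

namespace Pool.L2Q

open MeasureTheory SimpleGraph Pool.L2B
open scoped ENNReal

theorem stmt_FXZ (hCNC : Stmt_CNC) (hPPS : Stmt_PPS) : Stmt_FXZ := by
  intro V G ρ d lam δ Δ K E₀ D M Ψ hG p₀ τ hK x z
  refine hPPS V G ρ d lam δ Δ K E₀ D M Ψ hG p₀ τ hK x z
    {w : V | ρ x w + ρ w z ≤ ρ x z + 2 * cD δ Δ} ?_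
  intro w hw w₀ hw₀ c c₀ g hA hA₀
  have hw' : ρ x w + ρ w z ≤ ρ x z + 2 * cD δ Δ := hw
  have hw₀' : ρ x w₀ + ρ w₀ z ≤ ρ x z + 2 * cD δ Δ := hw₀
  have hc := hG.cor
  have hN := hCNC V G ρ d lam δ Δ K hc
  have e1 := hN x w c g hA.1 hA.2.2.1 hA.2.2.2
  have e2 := hN z w c g hA.2.1 hA.2.2.1 hA.2.2.2
  have e3 := hN x w₀ c₀ g hA₀.1 hA₀.2.2.1 hA₀.2.2.2
  have e4 := hN z w₀ c₀ g hA₀.2.1 hA₀.2.2.1 hA₀.2.2.2
  have t1 := hc.tri x w g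
  have t2 := hc.tri w c g
  have t3 := hc.tri z w g
  have t4 := hc.tri x w₀ g
  have t5 := hc.tri w₀ c₀ g
  have t6 := hc.tri z w₀ g
  have t7 := hc.tri x w z
  have t8 := hc.tri x w₀ z
  have s1 := hc.symm z w
  have s2 := hc.symm z w₀
  simp only [cB]
  omega

end Pool.L2Q
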