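import Pool.Agent.Work.MP_23451d_qt.Interface

/-!
# PERG: the Schur bound persists slightly above `p`, general weights (MP_23451d_pr)
-/

set_option autoImplicit false

namespace Pool.L2Q

open MeasureTheory SimpleGraph Pool.L2B
open scoped ENNReal

theorem stmt_PERG : Stmt_PERG := by
  intro V _ G d hdeg h A c hpos hh1 hnb _ hc p p' hp hpp' hp'1 hsmall hS x
  classical
  have hSIG := stmt_SIG
  have hCME := stmt_CME
  have hTAU := stmt_TAU stmt_LAB
  have hLIM := stmt_LIM
  have hEXP := stmt_EXP stmt_LAB hSIG hCME stmt_LEX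
  have hSPR := stmt_SPR stmt_LAB hSIG hCME hTAU stmt_LEX hEXP
  have hfin : ∀ y, h y ≠ ⊤ := fun y => ne_top_of_le_ne_top ENNReal.one_ne_top (hh1 y)
  obtain ⟨δ, hδ⟩ : ∃ δ : ℝ≥0∞, δ = ENNReal.ofReal ((p' - p) / (1 - p)) := ⟨_, rfl⟩
  rw [← hδ] at hsmall
  have hmono : ∀ (G₁ G₂ : SimpleGraph V) (s : ℝ) (u v : V), G₁ ≤ G₂ →
      tau G₁ s u v ≤ tau G₂ s u v := fun G₁ G₂ s u v hle =>
    (hTAU V G₁ G₂ s s u v).2.2.2.2.1 hle
  have hone : ∀ (G₁ : SimpleGraph V) (s : ℝ) (u v : V), tau G₁ s u v ≤ 1 := fun G₁ s u v =>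
    (hTAU V G₁ G₁ s s u v).1
  have key : ∀ Λ : Finset V, ∀ x ∈ Λ,
      ∑ y ∈ Λ, tau (within G (Λ : Set V)) p' x y * h y ≤ 2 * c * h x := by
    intro Λ
    have hΛG : within G (Λ : Set V) ≤ G := fun a b hab => hab.1
    obtain ⟨T, hT⟩ : ∃ T : V → ℝ≥0∞,
      T = fun x => ∑ y ∈ Λ, tau (within G (Λ : Set V)) p' x y * h y := ⟨_, rfl⟩
    have hTv : ∀ x, ∑ y ∈ Λ, tau (within G (Λ : Set V)) p' x y * h y = T x := fun x => by rw [hT]
    obtain ⟨M, hM⟩ : ∃ M : ℝ≥0∞, M = Λ.sup (fun x => T x / h x) := ⟨_, rfl⟩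
    have hTfin : ∀ x, T x ≠ ⊤ := fun x => by
      rw [hT]
      refine ENNReal.sum_ne_top.2 (fun y _ => ?_)
      exact ENNReal.mul_ne_top (ne_top_of_le_ne_top ENNReal.one_ne_top (hone _ _ _ _)) (hfin y)
    have hMfin : M ≠ ⊤ := by
      rw [hM]
      refine ((Finset.sup_lt_iff (bot_lt_top)).2 (fun x _ => ?_)).ne
      exact ENNReal.div_lt_top (hTfin x) (hpos x)
    have hTM : ∀ x ∈ Λ, T x ≤ M * h x := by
      intro x hx
      have h1 : T x / h x ≤ M := by
        rw [hM]
        exact Finset.le_sup (f := fun x => T x / h x) hx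
      exact (ENNReal.div_le_iff (hpos x) (hfin x)).1 h1
    have hstep : ∀ x ∈ Λ, T x ≤ (c + M / 2) * h x := by
      intro x hx
      have hA : ∑ y ∈ Λ, tau (within G (Λ : Set V)) p x y * h y ≤ c * h x :=
        calc ∑ y ∈ Λ, tau (within G (Λ : Set V)) p x y * h y
            ≤ ∑ y ∈ Λ, tau G p x y * h y :=
              Finset.sum_le_sum (fun y _ => mul_le_mul' (hmono _ _ _ _ _ hΛG) le_rfl)
          _ ≤ ∑' y, tau G p x y * h y := ENNReal.sum_le_tsum _
          _ ≤ c * h x := hS x
      have hA' : ∑' a, tau (within G (Λ : Set V)) p x a * h a ≤ c * h x :=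
        (ENNReal.tsum_le_tsum (fun y => mul_le_mul' (hmono _ _ _ _ _ hΛG) le_rfl)).trans (hS x)
      have hB : ∑ y ∈ Λ, (∑' e : {e : V × V // (within G (Λ : Set V)).Adj e.1 e.2},
          tau (within G (Λ : Set V)) p x e.1.1 * δ * tau (within G (Λ : Set V)) p' e.1.2 y) * h y
          = ∑' e : {e : V × V // (within G (Λ : Set V)).Adj e.1 e.2},
            tau (within G (Λ : Set V)) p x e.1.1 * δ * T e.1.2 := by
        rw [hT]
        simp only [← ENNReal.tsum_mul_right]
        rw [← Summable.tsum_finsetSum (fun _ _ => ENNReal.summable)]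
        refine tsum_congr (fun e => ?_)
        rw [Finset.mul_sum]
        exact Finset.sum_congr rfl (fun y _ => by ring)
      have hC : ∑' e : {e : V × V // (within G (Λ : Set V)).Adj e.1 e.2},
            tau (within G (Λ : Set V)) p x e.1.1 * δ * T e.1.2 ≤
          (δ * M * A) * (d * (c * h x)) := by
        calc ∑' e : {e : V × V // (within G (Λ : Set V)).Adj e.1 e.2},
            tau (within G (Λ : Set V)) p x e.1.1 * δ * T e.1.2
            ≤ ∑' e : {e : V × V // (within G (Λ : Set V)).Adj e.1 e.2},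
              (δ * M * A) * (tau (within G (Λ : Set V)) p x e.1.1 * h e.1.1) := by
              refine ENNReal.tsum_le_tsum (fun e => ?_)
              have h2 : e.1.2 ∈ Λ := by exact_mod_cast e.2.2.2
              have h3 : T e.1.2 ≤ M * (A * h e.1.1) :=
                (hTM _ h2).trans (mul_le_mul' le_rfl (hnb _ _ e.2.1))
              calc tau (within G (Λ : Set V)) p x e.1.1 * δ * T e.1.2
                  ≤ tau (within G (Λ : Set V)) p x e.1.1 * δ * (M * (A * h e.1.1)) :=
                    mul_le_mul' le_rfl h3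
                _ = _ := by ring
          _ = (δ * M * A) * ∑' e : {e : V × V // (within G (Λ : Set V)).Adj e.1 e.2},
              (tau (within G (Λ : Set V)) p x e.1.1 * h e.1.1) := ENNReal.tsum_mul_left
          _ ≤ (δ * M * A) * (d * ∑' a, (tau (within G (Λ : Set V)) p x a * h a)) :=
              mul_le_mul' le_rfl (Pool.L2B.PerAux.tsum_edges hΛG hdeg
                (fun a => tau (within G (Λ : Set V)) p x a * h a))
          _ ≤ (δ * M * A) * (d * (c * h x)) :=
              mul_le_mul' le_rfl (mul_le_mul' le_rfl hA')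
      have hD : (δ * M * A) * (d * (c * h x)) ≤ M / 2 * h x := by
        calc (δ * M * A) * (d * (c * h x)) = (δ * c * d * A) * (M * h x) := by ring
          _ ≤ (1 / 2) * (M * h x) := mul_le_mul' hsmall le_rfl
          _ = M / 2 * h x := by rw [div_eq_mul_inv, div_eq_mul_inv]; ring
      calc T x = ∑ y ∈ Λ, tau (within G (Λ : Set V)) p' x y * h y := (hTv x).symm
        _ ≤ ∑ y ∈ Λ, (tau (within G (Λ : Set V)) p x y +
            ∑' e : {e : V × V // (within G (Λ : Set V)).Adj e.1 e.2},
              tau (within G (Λ : Set V)) p x e.1.1 * δ *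
                tau (within G (Λ : Set V)) p' e.1.2 y) * h y := by
            refine Finset.sum_le_sum (fun y _ => mul_le_mul' ?_ le_rfl)
            rw [hδ]
            exact hSPR V G (Λ : Set V) (Finset.finite_toSet Λ) p p' hp hpp' hp'1 x y
        _ = ∑ y ∈ Λ, tau (within G (Λ : Set V)) p x y * h y +
            ∑ y ∈ Λ, (∑' e : {e : V × V // (within G (Λ : Set V)).Adj e.1 e.2},
              tau (within G (Λ : Set V)) p x e.1.1 * δ *
                tau (within G (Λ : Set V)) p' e.1.2 y) * h y := by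
            rw [← Finset.sum_add_distrib]
            exact Finset.sum_congr rfl (fun y _ => add_mul _ _ _)
        _ ≤ c * h x + M / 2 * h x := add_le_add hA (by rw [hB]; exact hC.trans hD)
        _ = (c + M / 2) * h x := by ring
    have hMle : M ≤ 2 * c := by
      have h1 : M ≤ c + M / 2 := by
        conv_lhs => rw [hM]
        refine Finset.sup_le (fun x hx => ?_)
        exact ENNReal.div_le_of_le_mul (hstep x hx)
      have h2 : M / 2 + M / 2 ≤ c + M / 2 := by rw [ENNReal.add_halves]; exact h1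
      have hM2 : M / 2 ≠ ⊤ := ne_top_of_le_ne_top hMfin ENNReal.half_le_self
      have h3 : M / 2 ≤ c := (ENNReal.add_le_add_iff_right hM2).1 h2
      calc M = M / 2 + M / 2 := (ENNReal.add_halves M).symm
        _ ≤ c + c := add_le_add h3 h3
        _ = 2 * c := by ring
    intro x hx
    rw [hTv x]
    exact (hTM x hx).trans (mul_le_mul' hMle le_rfl)
  rw [ENNReal.tsum_eq_iSup_sum]
  refine iSup_le (fun F => ?_)
  have hmonoΛ : ∀ (y : V) (Λ Λ' : Finset V), Λ ≤ Λ' →
      tau (within G (Λ : Set V)) p' x y ≤ tau (within G (Λ' : Set V)) p' x y := by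
    intro y Λ Λ' hle
    refine hmono _ _ _ _ _ (fun a b hab => ⟨hab.1, ?_, ?_⟩)
    · exact_mod_cast hle (by exact_mod_cast hab.2.1)
    · exact_mod_cast hle (by exact_mod_cast hab.2.2)
  calc ∑ y ∈ F, tau G p' x y * h y
      = ∑ y ∈ F, ⨆ Λ : Finset V, tau (within G (Λ : Set V)) p' x y * h y := by
        refine Finset.sum_congr rfl (fun y _ => ?_)
        rw [hLIM V G p' x y, ENNReal.iSup_mul]
    _ = ⨆ Λ : Finset V, ∑ y ∈ F, tau (within G (Λ : Set V)) p' x y * h y :=
        ENNReal.finsetSum_iSup_of_monotone (fun y Λ Λ' hle =>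
          mul_le_mul' (hmonoΛ y Λ Λ' hle) le_rfl)
    _ ≤ 2 * c * h x := by
        refine iSup_le (fun Λ => ?_)
        have hsub1 : Λ ≤ insert x (Λ ∪ F) :=
          (Finset.subset_union_left).trans (Finset.subset_insert _ _)
        have hsub2 : F ⊆ insert x (Λ ∪ F) :=
          (Finset.subset_union_right).trans (Finset.subset_insert _ _)
        calc ∑ y ∈ F, tau (within G (Λ : Set V)) p' x y * h y
            ≤ ∑ y ∈ F, tau (within G ((insert x (Λ ∪ F) : Finset V) : Set V)) p' x y * h y :=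
              Finset.sum_le_sum (fun y _ => mul_le_mul' (hmonoΛ y _ _ hsub1) le_rfl)
          _ ≤ ∑ y ∈ insert x (Λ ∪ F),
              tau (within G ((insert x (Λ ∪ F) : Finset V) : Set V)) p' x y * h y :=
              Finset.sum_le_sum_of_subset hsub2
          _ ≤ 2 * c * h x := key _ x (Finset.mem_insert_self _ _)

end Pool.L2Q
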