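import Pool.Agent.Work.MP_23451d_qt.Interface

/-!
# Block PPS (MP_23451d_pr): the ping-pong bound
-/

set_option autoImplicit false

namespace Pool.L2Q

open SimpleGraph Pool.L2B
open scoped ENNReal

namespace PPS

/-- counting with fibres -/
theorem count {A V : Type} (F : A → V) (n : ℕ) (hF : ∀ v, {a | F a = v}.encard ≤ n)
    (f : V → ℝ≥0∞) : ∑' a, f (F a) ≤ n * ∑' v, f v := by
  rw [← (Equiv.sigmaFiberEquiv F).tsum_eq, ENNReal.tsum_sigma', ← ENNReal.tsum_mul_left]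
  refine ENNReal.tsum_le_tsum fun v => ?_
  calc ∑' b : {a // F a = v}, f (F ((Equiv.sigmaFiberEquiv F) ⟨v, b⟩))
      = ∑' _ : {a // F a = v}, f v := by
        refine tsum_congr fun b => ?_
        have h : F ((Equiv.sigmaFiberEquiv F) ⟨v, b⟩) = v := b.2
        rw [h]
    _ = ({a | F a = v}.encard : ℝ≥0∞) * f v := by
        rw [ENNReal.tsum_const]
        rfl
    _ ≤ n * f v := by
        gcongr
        have h := hF v
        calc (({a | F a = v}.encard : ℕ∞) : ℝ≥0∞) ≤ ((n : ℕ∞) : ℝ≥0∞) := by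
              exact_mod_cast h
          _ = n := by simp

/-- three conditions, each excludes at most one of four indices -/
theorem pick {P Q R : Fin 4 → Prop} (hP : ∀ i j, i ≠ j → P i ∨ P j)
    (hQ : ∀ i j, i ≠ j → Q i ∨ Q j) (hR : ∀ i j, i ≠ j → R i ∨ R j) : ∃ i, P i ∧ Q i ∧ R i := by
  classical
  by_contra hcon
  push Not at hcon
  obtain ⟨f, hf⟩ : ∃ f : Fin 4 → Fin 3, ∀ i, (f i = 0 ∧ ¬ P i) ∨ (f i = 1 ∧ ¬ Q i) ∨
      (f i = 2 ∧ ¬ R i) := by
    refine ⟨fun i => if ¬ P i then 0 else if ¬ Q i then 1 else 2, fun i => ?_⟩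
    by_cases h1 : P i
    · by_cases h2 : Q i
      · right; right
        exact ⟨by simp [h1, h2], hcon i h1 h2⟩
      · right; left
        exact ⟨by simp [h1, h2], h2⟩
    · left
      exact ⟨by simp [h1], h1⟩
  obtain ⟨i, j, hij, hfij⟩ := Fintype.exists_ne_map_eq_of_card_lt f (by simp)
  have h1 := hf i
  have h2 := hf j
  have p1 := hP i j hij
  have p2 := hQ i j hij
  have p3 := hR i j hij
  rcases h1 with ⟨a1, b1⟩ | ⟨a1, b1⟩ | ⟨a1, b1⟩ <;> rcases h2 with ⟨a2, b2⟩ | ⟨a2, b2⟩ | ⟨a2, b2⟩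
  all_goals first
    | (rcases p1 with h | h
       · exact b1 h
       · exact b2 h)
    | (rcases p2 with h | h
       · exact b1 h
       · exact b2 h)
    | (rcases p3 with h | h
       · exact b1 h
       · exact b2 h)
    | (rw [a1, a2] at hfij; exact absurd hfij (by decide))

/-- decoding: two admissible concatenations with the same end are close -/
theorem close (hCNC : Stmt_CNC) {V : Type} {G : SimpleGraph V} {ρ : V → V → ℕ}
    {d lam δ Δ K E₀ : ℕ} (hC : Cor G ρ d lam δ Δ) {x z w w₀ c c₀ g : V}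
    (A1 : Adm ρ K (cL K δ) x z w c g) (A2 : Adm ρ K (cL K δ) x z w₀ c₀ g)
    (b1 : ρ x w ≤ ρ x w₀ + cB K δ Δ) (b2 : ρ x w₀ ≤ ρ x w + cB K δ Δ)
    (l1 : ρ w c ≤ ρ w₀ c₀ + E₀) (l2 : ρ w₀ c₀ ≤ ρ w c + E₀) :
    ρ w w₀ ≤ cE K δ Δ E₀ ∧ ρ c c₀ ≤ cE K δ Δ E₀ := by
  have c1 := hCNC V G ρ d lam δ Δ K hC x w c g A1.1 A1.2.2.1 A1.2.2.2
  have c2 := hCNC V G ρ d lam δ Δ K hC x w₀ c₀ g A2.1 A2.2.2.1 A2.2.2.2
  have t1 := hC.tri w c g
  have t2 := hC.tri w₀ c₀ g
  have t3 := hC.tri x w c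
  have t4 := hC.tri x c g
  have t5 := hC.tri x c₀ g
  have t6 := hC.tri x w₀ c₀
  have s1 := hC.symm g w
  have s2 := hC.symm g w₀
  have s3 := hC.symm g c
  have s4 := hC.symm g c₀
  have q1 := hC.hyp x g w w₀
  have q2 := hC.hyp x g c c₀
  unfold cE
  constructor <;> omega

theorem exists_adj {V : Type} {G : SimpleGraph V} {u v : V} (w : G.Walk u v) (h : u ≠ v) :
    ∃ a b, G.Adj a b := by
  cases w with
  | nil => exact absurd rfl h
  | cons h _ => exact ⟨_, _, h⟩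

end PPS

theorem stmt_PPS (hDST : Stmt_DST) (hCNC : Stmt_CNC) : Stmt_PPS := by
  classical
  intro V G ρ d lam δ Δ K E₀ D M Ψ hgeo p₀ τ hτ x z W hW
  have hC := hgeo.cor
  have hE := hgeo.ext
  -- the index
  have hidx : ∀ (w y : V), ∃ i : Fin 4, gp ρ w x (Ψ w x i x) K ∧ gp ρ w z (Ψ w x i x) K ∧
      gp ρ (Ψ w x i x) w (Ψ w x i y) K := by
    intro w y
    exact PPS.pick (hE.past w x x) (hE.past w x z) (hE.fut w x y)
  choose idx hidx1 hidx2 hidx3 using hidx
  have hAdm : ∀ w y : V, Adm ρ K (cL K δ) x z w (Ψ w x (idx w y) x) (Ψ w x (idx w y) y) :=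
    fun w y => ⟨hidx1 w y, hidx2 w y, hidx3 w y, hE.long w x _⟩
  -- `p₀ ≤ 1`
  have hp₀ : p₀ ≤ 1 := by
    have h1 := hE.long x x 0
    have h2 : 1 ≤ ρ x (Ψ x x 0 x) := by
      refine le_trans ?_ h1
      unfold cL
      omega
    have hne : x ≠ Ψ x x 0 x := by
      intro h
      rw [← h, hC.self] at h2
      omega
    obtain ⟨w⟩ := hC.conn.preconnected x (Ψ x x 0 x)
    obtain ⟨a, b, h⟩ := PPS.exists_adj w hne
    exact (hτ.edge _ _ h).trans (hτ.le_one _ _)
  -- the map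
  set F : W × V → V := fun a => Ψ a.1.1 x (idx a.1.1 a.2) a.2 with hF
  have hfib : ∀ g, {a | F a = g}.encard ≤ ((4 * M : ℕ) : ℕ∞) := by
    intro g
    have hun : {a | F a = g} ⊆ ⋃ i ∈ (Finset.univ : Finset (Fin 4)),
        {a | F a = g ∧ idx a.1.1 a.2 = i} := by
      intro a ha
      simp only [Finset.mem_univ, Set.iUnion_true, Set.mem_iUnion]
      exact ⟨idx a.1.1 a.2, ha, rfl⟩
    have hone : ∀ i : Fin 4, {a | F a = g ∧ idx a.1.1 a.2 = i}.encard ≤ (M : ℕ∞) := by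
      intro i
      rcases Set.eq_empty_or_nonempty {a | F a = g ∧ idx a.1.1 a.2 = i} with he | ⟨a₀, ha₀, hi₀⟩
      · rw [he]
        simp
      obtain ⟨f1, f2⟩ := hE.fin x i a₀.1.1 (Ψ a₀.1.1 x i x)
      have hmaps : Set.MapsTo (fun a : W × V => (a.1.1 : V)) {a | F a = g ∧ idx a.1.1 a.2 = i}
          {w | ρ w a₀.1.1 ≤ cE K δ Δ E₀ ∧ ρ (Ψ w x i x) (Ψ a₀.1.1 x i x) ≤ cE K δ Δ E₀} := by
        rintro a ⟨ha, hi⟩
        have hg : Ψ a.1.1 x i a.2 = g := by
          have := ha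
          simp only [hF, hi] at this
          exact this
        have hg₀ : Ψ a₀.1.1 x i a₀.2 = g := by
          have := ha₀
          simp only [hF, hi₀] at this
          exact this
        have A1 := hAdm a.1.1 a.2
        have A2 := hAdm a₀.1.1 a₀.2
        rw [hi, hg] at A1
        rw [hi₀, hg₀] at A2
        have b1 := hW _ a.1.2 _ a₀.1.2 _ _ g A1 A2
        have b2 := hW _ a₀.1.2 _ a.1.2 _ _ g A2 A1
        exact PPS.close hCNC hC A1 A2 b1 b2 (hE.len a.1.1 a₀.1.1 x i) (hE.len a₀.1.1 a.1.1 x i)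
      have hinj : Set.InjOn (fun a : W × V => (a.1.1 : V)) {a | F a = g ∧ idx a.1.1 a.2 = i} := by
        rintro a ⟨ha, hi⟩ b ⟨hb, hi'⟩ hab
        have hab' : a.1.1 = b.1.1 := hab
        have hg : Ψ a.1.1 x i a.2 = g := by
          have := ha
          simp only [hF, hi] at this
          exact this
        have hg' : Ψ b.1.1 x i b.2 = g := by
          have := hb
          simp only [hF, hi'] at this
          exact this
        rw [← hab'] at hg'
        have h2 : a.2 = b.2 := (Ψ a.1.1 x i).injective (hg.trans hg'.symm)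
        exact Prod.ext (Subtype.ext hab') h2
      calc {a | F a = g ∧ idx a.1.1 a.2 = i}.encard
          ≤ {w | ρ w a₀.1.1 ≤ cE K δ Δ E₀ ∧
              ρ (Ψ w x i x) (Ψ a₀.1.1 x i x) ≤ cE K δ Δ E₀}.encard :=
            Set.encard_le_encard_of_injOn hmaps hinj
        _ = (({w | ρ w a₀.1.1 ≤ cE K δ Δ E₀ ∧
              ρ (Ψ w x i x) (Ψ a₀.1.1 x i x) ≤ cE K δ Δ E₀}.ncard : ℕ) : ℕ∞) :=
            (f1.cast_ncard_eq).symm
        _ ≤ (M : ℕ∞) := by exact_mod_cast f2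
    calc {a | F a = g}.encard
        ≤ (⋃ i ∈ (Finset.univ : Finset (Fin 4)), {a | F a = g ∧ idx a.1.1 a.2 = i}).encard :=
          Set.encard_le_encard hun
      _ ≤ ∑ i : Fin 4, {a | F a = g ∧ idx a.1.1 a.2 = i}.encard := by
          have h4 : (⋃ i ∈ (Finset.univ : Finset (Fin 4)), {a | F a = g ∧ idx a.1.1 a.2 = i}) =
              {a | F a = g ∧ idx a.1.1 a.2 = 0} ∪ ({a | F a = g ∧ idx a.1.1 a.2 = 1} ∪
              ({a | F a = g ∧ idx a.1.1 a.2 = 2} ∪ {a | F a = g ∧ idx a.1.1 a.2 = 3})) := by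
            ext a
            simp only [Finset.mem_univ, Set.iUnion_true, Set.mem_iUnion, Set.mem_union,
              Set.mem_ofPred_eq]
            constructor
            · rintro ⟨i, h1, h2⟩
              have h5 : ∀ j : Fin 4, j = 0 ∨ j = 1 ∨ j = 2 ∨ j = 3 := by decide
              rcases h5 i with h | h | h | h
              · exact Or.inl ⟨h1, h2.trans h⟩
              · exact Or.inr (Or.inl ⟨h1, h2.trans h⟩)
              · exact Or.inr (Or.inr (Or.inl ⟨h1, h2.trans h⟩))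
              · exact Or.inr (Or.inr (Or.inr ⟨h1, h2.trans h⟩))
            · rintro (h | h | h | h)
              · exact ⟨0, h⟩
              · exact ⟨1, h⟩
              · exact ⟨2, h⟩
              · exact ⟨3, h⟩
          rw [h4, Fin.sum_univ_four, add_assoc, add_assoc]
          refine (Set.encard_union_le _ _).trans (add_le_add le_rfl ?_)
          refine (Set.encard_union_le _ _).trans (add_le_add le_rfl ?_)
          exact Set.encard_union_le _ _
      _ ≤ ∑ _i : Fin 4, (M : ℕ∞) := Finset.sum_le_sum fun i _ => hone i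
      _ = ((4 * M : ℕ) : ℕ∞) := by simp
  have hcount := PPS.count F (4 * M) hfib (fun g => τ x g)
  -- the lower bound
  have hlow : ∀ a : W × V, p₀ ^ D * τ x a.1.1 * τ x a.2 ≤ τ x (F a) := by
    intro a
    set ψ := Ψ a.1.1 x (idx a.1.1 a.2) with hψ
    have h1 : p₀ ^ D ≤ τ a.1.1 (ψ x) :=
      (pow_le_pow_right_of_le_one' hp₀ (hE.near _ _ _)).trans
        (hDST V G hC.conn d p₀ τ hτ a.1.1 (ψ x))
    have h2 : τ (ψ x) (ψ a.2) = τ x a.2 := hτ.inv ψ x a.2
    calc p₀ ^ D * τ x a.1.1 * τ x a.2 = τ x a.1.1 * p₀ ^ D * τ (ψ x) (ψ a.2) := by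
          rw [h2, mul_comm (p₀ ^ D)]
      _ ≤ τ x a.1.1 * τ a.1.1 (ψ x) * τ (ψ x) (ψ a.2) := by gcongr
      _ ≤ τ x (ψ x) * τ (ψ x) (ψ a.2) := by
          gcongr
          exact hτ.har _ _ _
      _ ≤ τ x (ψ a.2) := hτ.har _ _ _
  have hχ0 : (∑' y, τ x y) ≠ 0 := by
    intro h
    have h1 := ENNReal.le_tsum (f := fun y => τ x y) x
    rw [h, hτ.refl] at h1
    exact absurd h1 (by simp)
  have hmain : (p₀ ^ D * ∑' w : W, τ x w.1) * ∑' y, τ x y ≤ (4 * M) * ∑' y, τ x y := by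
    calc (p₀ ^ D * ∑' w : W, τ x w.1) * ∑' y, τ x y
        = ∑' a : W × V, p₀ ^ D * τ x a.1.1 * τ x a.2 := by
          rw [ENNReal.tsum_prod', ← ENNReal.tsum_mul_left (a := p₀ ^ D)
            (f := fun w : W => τ x w.1), ← ENNReal.tsum_mul_right]
          refine tsum_congr fun w => ?_
          exact (ENNReal.tsum_mul_left (a := p₀ ^ D * τ x w.1) (f := fun y => τ x y)).symm
      _ ≤ ∑' a : W × V, τ x (F a) := ENNReal.tsum_le_tsum hlow
      _ ≤ ((4 * M : ℕ) : ℝ≥0∞) * ∑' y, τ x y := hcount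
      _ = (4 * M) * ∑' y, τ x y := by push_cast; rfl
  exact (ENNReal.mul_le_mul_iff_left hχ0 (hτ.fin x)).1 hmain

end Pool.L2Q
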