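import Pool.Agent.Work.MP_23451d_qt.Interface

/-! Block SER: a geometric series. -/

set_option autoImplicit false

namespace Pool.L2Q

open scoped ENNReal

namespace SERAux

theorem tail (s : ℝ≥0∞) (N : ℕ) (hN : 1 ≤ N) (hs : s ≠ ⊤) (hρ : s ^ N * (1 / 2) < 1) :
    ∑' j : ℕ, s ^ j * (1 / 2 : ℝ≥0∞) ^ (j / N) ≠ ⊤ := by
  have : NeZero N := ⟨by omega⟩
  have e : ∑' j : ℕ, s ^ j * (1 / 2 : ℝ≥0∞) ^ (j / N) =
      ∑' p : ℕ × Fin N, (s ^ N * (1 / 2)) ^ p.1 * s ^ (p.2 : ℕ) := by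
    rw [← (Nat.divModEquiv N).tsum_eq]
    refine tsum_congr (fun j => ?_)
    have h1 : ((Nat.divModEquiv N) j).1 = j / N := rfl
    have h2 : (((Nat.divModEquiv N) j).2 : ℕ) = j % N := by
      simp [Nat.divModEquiv]
    rw [h1, h2, mul_pow, ← pow_mul]
    calc s ^ j * (1 / 2 : ℝ≥0∞) ^ (j / N)
        = s ^ (N * (j / N) + j % N) * (1 / 2 : ℝ≥0∞) ^ (j / N) := by rw [Nat.div_add_mod]
      _ = s ^ (N * (j / N)) * (1 / 2) ^ (j / N) * s ^ (j % N) := by rw [pow_add]; ring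
  rw [e, ENNReal.tsum_prod (f := fun (q : ℕ) (t : Fin N) => (s ^ N * (1 / 2)) ^ q * s ^ (t : ℕ))]
  have e2 : ∀ q : ℕ, ∑' t : Fin N, (s ^ N * (1 / 2)) ^ q * s ^ (t : ℕ) =
      (s ^ N * (1 / 2)) ^ q * ∑' t : Fin N, s ^ (t : ℕ) := fun q => ENNReal.tsum_mul_left
  rw [tsum_congr e2, ENNReal.tsum_mul_right, ENNReal.tsum_geometric]
  refine ENNReal.mul_ne_top ?_ ?_
  · rw [Ne, ENNReal.inv_eq_top, tsub_eq_zero_iff_le]
    exact not_le.2 hρ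
  · rw [tsum_fintype]
    exact ENNReal.sum_ne_top.2 (fun t _ => ENNReal.pow_ne_top hs)

end SERAux

theorem stmt_SER : Stmt_SER := by
  intro r N a hN hr
  have hr0 : r ≠ 0 := by
    rintro rfl
    rw [zero_pow (by omega)] at hr
    exact absurd hr not_lt_zero
  have hs : r⁻¹ ≠ ⊤ := ENNReal.inv_ne_top.2 hr0
  have hρ : (r⁻¹) ^ N * (1 / 2) < 1 := by
    have h2 : (r ^ N)⁻¹ < 2 := by
      rw [ENNReal.inv_lt_iff_inv_lt]
      rwa [one_div] at hr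
    rw [← ENNReal.inv_pow, one_div, ← div_eq_mul_inv, ENNReal.div_lt_iff (by simp) (by simp), one_mul]
    exact h2
  have ht := SERAux.tail r⁻¹ N hN hs hρ
  have e : ∑' i : ℕ, (r⁻¹) ^ i * (1 / 2 : ℝ≥0∞) ^ ((i - a) / N) =
      ∑ i ∈ Finset.range a, (r⁻¹) ^ i * (1 / 2 : ℝ≥0∞) ^ ((i - a) / N) +
      ∑' i : ℕ, (r⁻¹) ^ (i + a) * (1 / 2 : ℝ≥0∞) ^ ((i + a - a) / N) :=
    (ENNReal.summable.sum_add_tsum_nat_add' (f := fun i : ℕ => (r⁻¹) ^ i * (1 / 2 : ℝ≥0∞) ^ ((i - a) / N))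
      (k := a)).symm
  rw [e]
  refine ENNReal.add_ne_top.2 ⟨?_, ?_⟩
  · refine ENNReal.sum_ne_top.2 (fun i _ => ENNReal.mul_ne_top (ENNReal.pow_ne_top hs)
      (ENNReal.pow_ne_top (by simp)))
  · have e3 : ∀ i : ℕ, (r⁻¹) ^ (i + a) * (1 / 2 : ℝ≥0∞) ^ ((i + a - a) / N) =
        (r⁻¹) ^ a * ((r⁻¹) ^ i * (1 / 2 : ℝ≥0∞) ^ (i / N)) := by
      intro i
      rw [Nat.add_sub_cancel, pow_add]
      ring
    rw [tsum_congr e3, ENNReal.tsum_mul_left]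
    exact ENNReal.mul_ne_top (ENNReal.pow_ne_top hs) ht

end Pool.L2Q
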