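import Pool.Agent.Work.MP_23451d_qt.Interface

/-!
# Block VCU: the two-point function is a kernel
-/

set_option autoImplicit false

namespace Pool.L2Q

open MeasureTheory SimpleGraph Pool.L2B
open scoped ENNReal

theorem stmt_VCU : Stmt_VCU := by
  intro V _ G d hdeg hd p₀ p hp₀ hp hp1 hfin
  have hTAU := stmt_TAU stmt_LAB
  have hINV := stmt_INV stmt_CME stmt_SIG
  have hHAR := stmt_HAR hTAU stmt_LIM
  have hEXP := stmt_EXP stmt_LAB stmt_SIG stmt_CME stmt_LEX
  have hCUT := stmt_CUT stmt_LAB stmt_SIG stmt_CME hTAU stmt_LIM stmt_LEX hEXP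
  have hp0 : 0 ≤ p := hp₀.le.trans hp
  have hself : ∀ x, tau G p x x = 1 := fun x => (hTAU V G G p p x x).2.1
  have hone : ∀ x y, tau G p x y ≤ 1 := fun x y => (hTAU V G G p p x y).1
  have hedge : ∀ x y, G.Adj x y → ENNReal.ofReal p ≤ tau G p x y :=
    fun x y h => (hTAU V G G p p x y).2.2.2.2.2 hp0 hp1 h
  refine ⟨hself, hone, fun x y => (hTAU V G G p p x y).2.2.1, hHAR V G p,
    fun φ x y => hINV V G G φ p x y,
    fun x y h => (ENNReal.ofReal_le_ofReal hp).trans (hedge x y h), ?_, hfin⟩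
  intro Z x y hZ
  by_cases hxZ : x ∈ Z
  · have h1 : tau G p x x * tau G p x y ≤ ∑' v : Z, tau G p x v.1 * tau G p v.1 y :=
      ENNReal.le_tsum (f := fun v : Z => tau G p x v.1 * tau G p v.1 y) ⟨x, hxZ⟩
    rw [hself, one_mul] at h1
    refine h1.trans ?_
    have : (1 : ℝ≥0∞) ≤ (d : ℝ≥0∞) := by exact_mod_cast hd
    calc ∑' v : Z, tau G p x v.1 * tau G p v.1 y
        = 1 * ∑' v : Z, tau G p x v.1 * tau G p v.1 y := (one_mul _).symm
      _ ≤ d * ∑' v : Z, tau G p x v.1 * tau G p v.1 y := mul_le_mul_left this _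
  · let U : Set V := {u | ∃ w : G.Walk x u, ∀ v ∈ w.support, v ∉ Z}
    have hxU : x ∈ U := ⟨Walk.nil, by simpa using hxZ⟩
    have hyU : y ∉ U := by
      rintro ⟨w, hw⟩
      obtain ⟨v, hv, hvZ⟩ := hZ w
      exact hw v hv hvZ
    have hEZ : ∀ e : bdE G U, e.1.2 ∈ Z := by
      rintro ⟨⟨a, b⟩, ⟨w, hw⟩, hb, hab⟩
      by_contra hbZ
      refine hb ⟨w.concat hab, fun v hv => ?_⟩
      rw [Walk.support_concat] at hv
      have hv' : v ∈ w.support ∨ v = b := by simpa using hv
      rcases hv' with h | h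
      · exact hw v h
      · rw [h]
        exact hbZ
    refine (hCUT V G p hp0 hp1 U x hxU y hyU).trans ?_
    have hterm : ∀ e : bdE G U, tau (within G U) p x e.1.1 * ENNReal.ofReal p * tau G p e.1.2 y ≤
        tau G p x e.1.2 * tau G p e.1.2 y := by
      intro e
      refine mul_le_mul_left ?_ _
      refine le_trans ?_ (hHAR V G p x e.1.1 e.1.2)
      refine mul_le_mul' ?_ (hedge _ _ e.2.2.2)
      exact (hTAU V (within G U) G p p x e.1.1).2.2.2.2.1 (fun a b h => h.1)
    refine (ENNReal.tsum_le_tsum hterm).trans ?_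
    let F : (Σ v : Z, G.neighborSet v.1) → ℝ≥0∞ := fun s => tau G p x s.1.1 * tau G p s.1.1 y
    let ι : bdE G U → (Σ v : Z, G.neighborSet v.1) :=
      fun e => ⟨⟨e.1.2, hEZ e⟩, ⟨e.1.1, e.2.2.2.symm⟩⟩
    have hι : Function.Injective ι := by
      intro e f hef
      have h1 : e.1.2 = f.1.2 := congrArg (fun s : (Σ v : Z, G.neighborSet v.1) => s.1.1) hef
      have h2 : e.1.1 = f.1.1 := congrArg (fun s : (Σ v : Z, G.neighborSet v.1) => s.2.1) hef
      exact Subtype.ext (Prod.ext h2 h1)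
    have h1 : ∑' e : bdE G U, tau G p x e.1.2 * tau G p e.1.2 y ≤ ∑' s, F s :=
      ENNReal.tsum_comp_le_tsum_of_injective hι F
    refine h1.trans ?_
    rw [ENNReal.tsum_sigma', ← ENNReal.tsum_mul_left]
    refine ENNReal.tsum_le_tsum fun v => ?_
    have : Finite (G.neighborSet v.1) := (hdeg v.1).1
    have := Fintype.ofFinite (G.neighborSet v.1)
    rw [tsum_fintype]
    simp only [F, Finset.sum_const, nsmul_eq_mul]
    refine mul_le_mul_left ?_ _
    have : (Finset.univ : Finset (G.neighborSet v.1)).card ≤ d := by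
      rw [Finset.card_univ, ← Nat.card_eq_fintype_card, Nat.card_coe_set_eq]
      exact (hdeg v.1).2
    exact_mod_cast this

end Pool.L2Q
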