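import Pool.Agent.Work.MP_23451d_qt.Interface

/-!
# VSM: weighted sums (MP_23451d_pr)
-/

set_option autoImplicit false

namespace Pool.L2Q

open MeasureTheory SimpleGraph Pool.L2B
open scoped ENNReal

theorem stmt_VSM (hLVL : Stmt_LVL) : Stmt_VSM := by
  intro V G ρ d lam δ Δ K E₀ D M Ψ hG p₀ τ hK r x
  have hL := hLVL V G ρ d lam δ Δ K E₀ D M Ψ hG p₀ τ hK x
  have h1 : ∑' y, τ x y * r ^ ρ x y
      = ∑' n : ℕ, (∑' w : {w : V | ρ x w = n}, τ x w.1) * r ^ n := by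
    rw [← (Equiv.sigmaFiberEquiv (fun y => ρ x y)).tsum_eq (fun y => τ x y * r ^ ρ x y)]
    rw [ENNReal.tsum_sigma']
    refine tsum_congr (fun n => ?_)
    rw [← ENNReal.tsum_mul_right]
    refine tsum_congr (fun w => ?_)
    have hw : ρ x w.1 = n := w.2
    simp only [Equiv.sigmaFiberEquiv, Equiv.coe_fn_mk, hw]
  rw [h1, ← ENNReal.tsum_mul_left]
  calc ∑' n : ℕ, p₀ ^ D * ((∑' w : {w : V | ρ x w = n}, τ x w.1) * r ^ n)
      ≤ ∑' n : ℕ, (4 * M) * r ^ n := by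
        refine ENNReal.tsum_le_tsum (fun n => ?_)
        rw [← mul_assoc]
        exact mul_le_mul' (hL n) le_rfl
    _ = 4 * M * (1 - r)⁻¹ := by rw [ENNReal.tsum_mul_left, ENNReal.tsum_geometric]

end Pool.L2Q
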