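import Pool.Agent.Work.MP_23451d_qt.Interface

/-!
# Block WSH (MP_23451d_pr, WPD actions on quasi-trees): the weighted Schur bound
-/

set_option autoImplicit false

namespace Pool.L2Q

open MeasureTheory SimpleGraph Pool.L2B
open scoped ENNReal

theorem wsh_div {a X Y : ℝ≥0∞} (ha0 : a ≠ 0) (hat : a ≠ ⊤) (h : a * X ≤ Y) : X ≤ a⁻¹ * Y := by
  calc X = a⁻¹ * (a * X) := by rw [← mul_assoc, ENNReal.inv_mul_cancel ha0 hat, one_mul]
    _ ≤ a⁻¹ * Y := by gcongr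

theorem wsh_pow {r : ℝ≥0∞} (hr0 : r ≠ 0) (hr1 : r ≤ 1) {m n k : ℕ} (h : n ≤ m + k) :
    r ^ m ≤ r ^ n * (r⁻¹) ^ k := by
  have hrt : r ≠ ⊤ := ne_top_of_le_ne_top ENNReal.one_ne_top hr1
  have h1 : r ^ k * (r⁻¹) ^ k = 1 := by
    rw [← mul_pow, ENNReal.mul_inv_cancel hr0 hrt, one_pow]
  calc r ^ m = r ^ m * (r ^ k * (r⁻¹) ^ k) := by rw [h1, mul_one]
    _ = r ^ (m + k) * (r⁻¹) ^ k := by rw [pow_add]; ring
    _ ≤ r ^ n * (r⁻¹) ^ k :=
        mul_le_mul_left (pow_le_pow_right_of_le_one' hr1 h) _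

theorem stmt_WSH (hDCY : Stmt_DCY) (hVSM : Stmt_VSM) (hSER : Stmt_SER) : Stmt_WSH := by
  intro V G ρ d lam δ Δ K E₀ D M Ψ hgeo p₀ hp0 hpt
  obtain ⟨N, hN1, hN⟩ := hDCY V G ρ d lam δ Δ K E₀ D M Ψ hgeo p₀ hp0
  refine ⟨N, hN1, ?_⟩
  intro r hr1 hrN
  have hr0 : r ≠ 0 := by
    rintro rfl
    rw [zero_pow (by omega)] at hrN
    simp at hrN
  set a : ℝ≥0∞ := p₀ ^ D with ha
  have ha0 : a ≠ 0 := pow_ne_zero _ hp0
  have hat : a ≠ ⊤ := ENNReal.pow_ne_top hpt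
  set S : ℝ≥0∞ := ∑' i : ℕ, (r⁻¹) ^ i * (1 / 2 : ℝ≥0∞) ^ ((i - (Δ + δ)) / N) with hS
  have hSt : S ≠ ⊤ := hSER r N (Δ + δ) hN1 hrN
  set C₁ : ℝ≥0∞ := a⁻¹ * (4 * M * (1 - r)⁻¹) with hC1
  set C₂ : ℝ≥0∞ := a⁻¹ * (4 * M) with hC2
  have hainv : a⁻¹ ≠ ⊤ := ENNReal.inv_ne_top.mpr ha0
  have hM : (4 * M : ℝ≥0∞) ≠ ⊤ := ENNReal.mul_ne_top (by simp) (ENNReal.natCast_ne_top M)
  have hC2t : C₂ ≠ ⊤ := ENNReal.mul_ne_top hainv hM
  have hC1t : C₁ ≠ ⊤ := by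
    refine ENNReal.mul_ne_top hainv (ENNReal.mul_ne_top hM ?_)
    exact ENNReal.inv_ne_top.mpr (tsub_pos_of_lt hr1).ne'
  refine ⟨d * (r⁻¹) ^ (Δ + 1) * C₁ * C₂ * S, ?_, ?_⟩
  · refine ENNReal.mul_ne_top (ENNReal.mul_ne_top (ENNReal.mul_ne_top (ENNReal.mul_ne_top
      (ENNReal.natCast_ne_top d) ?_) hC1t) hC2t) hSt
    exact ENNReal.pow_ne_top (ENNReal.inv_ne_top.mpr hr0)
  intro τ hker o x
  have hsymm := hgeo.cor.symm
  have htri := hgeo.cor.tri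
  -- the slab
  set W : ℕ → Set V := fun i => {v | ρ x v ≤ i + Δ ∧ ρ v o + i ≤ ρ x o + Δ + δ} with hW
  set B : ℕ → V → ℝ≥0∞ := fun i y => d * (r ^ ρ x o * (r⁻¹) ^ (i + (Δ + 1))) *
    ∑' v : W i, τ x v.1 * (τ v.1 y * r ^ ρ v.1 y) with hB
  have key : ∀ y, τ x y * r ^ ρ y o ≤ ∑' i : ℕ, B i y := by
    intro y
    obtain ⟨i, hi⟩ : ∃ i : ℕ, i = (ρ x y + ρ x o - ρ y o) / 2 := ⟨_, rfl⟩
    have t1 := htri y x o
    have t2 := htri x y o
    have t3 := hsymm y x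
    have hi1 : i ≤ ρ x y := by omega
    have hi2 : 2 * i + ρ y o ≤ ρ x y + ρ x o := by omega
    have hi3 : ρ x y + ρ x o ≤ 2 * i + 1 + ρ y o := by omega
    refine le_trans ?_ (ENNReal.le_tsum i)
    set Z : Set V := {v | v ∈ W i ∧ ρ v y + i ≤ ρ x y + Δ} with hZ
    have hcut := hker.cut Z x y (by
      intro w
      obtain ⟨v, hv, hv1, hv2⟩ := hgeo.cor.bot x y w i hi1
      refine ⟨v, hv, ⟨hv1, ?_⟩, hv2⟩
      have h1 := hgeo.cor.hyp v o x y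
      have h2 := hsymm v x
      have h3 := hsymm o y
      have h4 := hsymm o x
      rcases h1 with h1 | h1 <;> omega)
    have hZW : Z ⊆ W i := fun v hv => hv.1
    calc τ x y * r ^ ρ y o ≤ (d * ∑' v : Z, τ x v.1 * τ v.1 y) * r ^ ρ y o := by gcongr
      _ = d * ∑' v : Z, (τ x v.1 * τ v.1 y) * r ^ ρ y o := by
          rw [mul_assoc, ENNReal.tsum_mul_right]
      _ ≤ d * ∑' v : Z, (τ x v.1 * (τ v.1 y * r ^ ρ v.1 y)) *
            (r ^ ρ x o * (r⁻¹) ^ (i + (Δ + 1))) := by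
          refine mul_le_mul_right (ENNReal.tsum_le_tsum fun v => ?_) _
          have hv2 : ρ v.1 y + i ≤ ρ x y + Δ := v.2.2
          have hp : r ^ ρ y o ≤ r ^ (ρ x o + ρ v.1 y) * (r⁻¹) ^ (i + (Δ + 1)) :=
            wsh_pow hr0 hr1.le (by omega)
          calc τ x v.1 * τ v.1 y * r ^ ρ y o
              ≤ τ x v.1 * τ v.1 y * (r ^ (ρ x o + ρ v.1 y) * (r⁻¹) ^ (i + (Δ + 1))) := by
                gcongr
            _ = _ := by rw [pow_add]; ring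
      _ ≤ d * ∑' v : W i, (τ x v.1 * (τ v.1 y * r ^ ρ v.1 y)) *
            (r ^ ρ x o * (r⁻¹) ^ (i + (Δ + 1))) := by
          refine mul_le_mul_right ?_ _
          exact ENNReal.tsum_mono_subtype
            (fun v : V => (τ x v * (τ v y * r ^ ρ v y)) * (r ^ ρ x o * (r⁻¹) ^ (i + (Δ + 1)))) hZW
      _ = B i y := by
          rw [ENNReal.tsum_mul_right, hB]
          ring
  -- the sum over a slab
  have hslab : ∀ i : ℕ, ∑' v : W i, τ x v.1 ≤ C₂ * (1 / 2) ^ ((i - (Δ + δ)) / N) := by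
    intro i
    rcases Set.eq_empty_or_nonempty (W i) with h0 | ⟨v₀, hv₀⟩
    · have : IsEmpty (W i) := Set.isEmpty_coe_sort.mpr h0
      rw [tsum_empty]
      exact zero_le
    · have hv01 : ρ x v₀ ≤ i + Δ := hv₀.1
      have hv02 : ρ v₀ o + i ≤ ρ x o + Δ + δ := hv₀.2
      have hsub : W i ⊆ {w : V | ρ w v₀ ≤ 2 * Δ + 2 * δ} := by
        intro v hv
        have hv1 : ρ x v ≤ i + Δ := hv.1
        have hv2 : ρ v o + i ≤ ρ x o + Δ + δ := hv.2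
        have h1 := hgeo.cor.hyp v v₀ x o
        have h2 := hsymm v x
        have h3 := hsymm v₀ x
        show ρ v v₀ ≤ 2 * Δ + 2 * δ
        rcases h1 with h1 | h1 <;> omega
      have t1 := htri x v₀ o
      have hn : (i - (Δ + δ)) / N * N ≤ ρ x v₀ := by
        have h1 := Nat.div_mul_le_self (i - (Δ + δ)) N
        omega
      have h2 := hN τ hker ((i - (Δ + δ)) / N) x v₀ hn
      have h3 : ∑' v : W i, τ x v.1 ≤ ∑' w : {w : V | ρ w v₀ ≤ 2 * Δ + 2 * δ}, τ x w.1 :=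
        ENNReal.tsum_mono_subtype (fun v : V => τ x v) hsub
      refine h3.trans ((wsh_div ha0 hat h2).trans (le_of_eq ?_))
      rw [hC2]
      ring
  have hinner : ∀ v : V, ∑' y, τ v y * r ^ ρ v y ≤ C₁ := by
    intro v
    exact wsh_div ha0 hat (hVSM V G ρ d lam δ Δ K E₀ D M Ψ hgeo p₀ τ hker r v)
  calc ∑' y, τ x y * r ^ ρ y o ≤ ∑' y, ∑' i : ℕ, B i y := ENNReal.tsum_le_tsum key
    _ = ∑' i : ℕ, ∑' y, B i y := ENNReal.tsum_comm
    _ ≤ ∑' i : ℕ, (d * (r⁻¹) ^ (Δ + 1) * C₁ * C₂ * r ^ ρ x o) *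
          ((r⁻¹) ^ i * (1 / 2 : ℝ≥0∞) ^ ((i - (Δ + δ)) / N)) := by
        refine ENNReal.tsum_le_tsum fun i => ?_
        calc ∑' y, B i y = d * (r ^ ρ x o * (r⁻¹) ^ (i + (Δ + 1))) *
              ∑' y, ∑' v : W i, τ x v.1 * (τ v.1 y * r ^ ρ v.1 y) := by
              rw [hB, ENNReal.tsum_mul_left]
          _ = d * (r ^ ρ x o * (r⁻¹) ^ (i + (Δ + 1))) *
              ∑' v : W i, τ x v.1 * ∑' y, τ v.1 y * r ^ ρ v.1 y := by
              rw [ENNReal.tsum_comm]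
              congr 1
              refine tsum_congr fun v => ?_
              rw [ENNReal.tsum_mul_left]
          _ ≤ d * (r ^ ρ x o * (r⁻¹) ^ (i + (Δ + 1))) * ∑' v : W i, τ x v.1 * C₁ := by
              refine mul_le_mul_right (ENNReal.tsum_le_tsum fun v => ?_) _
              exact mul_le_mul_right (hinner v.1) _
          _ = d * (r ^ ρ x o * (r⁻¹) ^ (i + (Δ + 1))) * ((∑' v : W i, τ x v.1) * C₁) := by
              rw [ENNReal.tsum_mul_right]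
          _ ≤ d * (r ^ ρ x o * (r⁻¹) ^ (i + (Δ + 1))) *
              ((C₂ * (1 / 2) ^ ((i - (Δ + δ)) / N)) * C₁) := by
              gcongr
              exact hslab i
          _ = _ := by rw [pow_add]; ring
    _ = d * (r⁻¹) ^ (Δ + 1) * C₁ * C₂ * S * r ^ ρ x o := by
        rw [ENNReal.tsum_mul_left, ← hS]
        ring

end Pool.L2Q
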