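import Pool.Agent.Work.MP_23451d_qt.Main
import Pool.Agent.Work.MP_23451d_qt.FOUR
import Pool.Agent.Work.MP_23451d_qt.BOTG
import Pool.Agent.Work.MP_23451d_qt.CORX
import Pool.Agent.Work.MP_23451d_qt.FEL
import Pool.Agent.Work.MP_23451d_qt.EXB
import Pool.Agent.Work.MP_23451d_qt.VCU
import Pool.Agent.Work.MP_23451d_qt.PERG
import Pool.Agent.Work.MP_23451d_qt.DST
import Pool.Agent.Work.MP_23451d_qt.CNC
import Pool.Agent.Work.MP_23451d_qt.PPS
import Pool.Agent.Work.MP_23451d_qt.LVL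
import Pool.Agent.Work.MP_23451d_qt.FXZ
import Pool.Agent.Work.MP_23451d_qt.DCY
import Pool.Agent.Work.MP_23451d_qt.VSM
import Pool.Agent.Work.MP_23451d_qt.SER
import Pool.Agent.Work.MP_23451d_qt.WSH

/-!
# The theorem for WPD actions on quasi-trees, from all blocks
-/

set_option autoImplicit false

namespace Pool.L2Q

theorem final : Stmt_MAINQ :=
  have hPPS : Stmt_PPS := stmt_PPS stmt_DST stmt_CNC
  have hDCY : Stmt_DCY := stmt_DCY (stmt_FXZ stmt_CNC hPPS)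
  mainq (stmt_CORX stmt_FOUR stmt_BOTG) stmt_FEL stmt_EXB stmt_VCU stmt_PERG stmt_DST
    (stmt_WSH hDCY (stmt_VSM (stmt_LVL hPPS)) stmt_SER)

end Pool.L2Q
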