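import Pool.Agent.Work.MP_23451d_qt.Defs

/-!
# Block statements (MP_23451d_pr, WPD actions on quasi-trees)

Block X: file `X.lean`, `theorem stmt_X (hY : Stmt_Y) .. : Stmt_X`. Proofs on paper: BLUEPRINT.md.
-/

set_option autoImplicit false

namespace Pool.L2Q

open MeasureTheory SimpleGraph Pool.L2B
open scoped ENNReal

/-! ## Geometry -/

/-- FOUR: the bottleneck property implies the four point inequality -/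
def Stmt_FOUR : Prop :=
  ∀ (Q : Type) (H : SimpleGraph Q), H.Connected → ∀ Δ : ℕ, Bot H Δ → ∀ x y z w : Q,
    H.dist x y + H.dist z w ≤ H.dist x z + H.dist y w + (4 * Δ + 1) ∨
    H.dist x y + H.dist z w ≤ H.dist x w + H.dist y z + (4 * Δ + 1)

/-- BOTG: the bottleneck property for the walks of a graph with a Lipschitz map to `H` -/
def Stmt_BOTG : Prop :=
  ∀ (V : Type) (G : SimpleGraph V) (Q : Type) (H : SimpleGraph Q), H.Connected →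
    ∀ Δ : ℕ, Bot H Δ → ∀ (π : V → Q) (lam : ℕ), (∀ x y, G.Adj x y → H.dist (π x) (π y) ≤ lam) →
    ∀ (x y : V) (w : G.Walk x y) (t : ℕ), t ≤ H.dist (π x) (π y) →
      ∃ v ∈ w.support, H.dist (π x) (π v) ≤ t + (Δ + lam) ∧
        H.dist (π v) (π y) + t ≤ H.dist (π x) (π y) + (Δ + lam)

/-- CORX: the coarse geometry (from FOUR, BOTG) -/
def Stmt_CORX : Prop :=
  ∀ (V : Type) (G : SimpleGraph V), G.Connected → (∀ v, (G.neighborSet v).Finite) →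
    ∀ (Γ : Type) [Group Γ] [MulAction Γ V],
    (∀ (γ : Γ) (x y : V), G.Adj x y → G.Adj (γ • x) (γ • y)) →
    (∃ F : Finset V, ∀ v : V, ∃ γ : Γ, ∃ u ∈ F, γ • u = v) →
    ∀ (Q : Type) (H : SimpleGraph Q) [MulAction Γ Q], H.Connected →
    (∀ (γ : Γ) (a b : Q), H.Adj a b → H.Adj (γ • a) (γ • b)) → (∃ Δ : ℕ, Bot H Δ) →
    ∀ π : V → Q, (∀ (γ : Γ) (x : V), π (γ • x) = γ • π x) →
    (∀ (γ : Γ) (x y : V), H.dist (π (γ • x)) (π (γ • y)) = H.dist (π x) (π y)) ∧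
    ∃ d lam δ Δ : ℕ, Cor G (fun x y => H.dist (π x) (π y)) d lam δ Δ

/-- FEL: four long elements in different directions (`r` is a left invariant pseudometric) -/
def Stmt_FEL : Prop :=
  ∀ (Γ V : Type) [Group Γ] [MulAction Γ V] (r : Γ → Γ → ℕ) (δ : ℕ),
    (∀ a, r a a = 0) → (∀ a b, r a b = r b a) → (∀ a b c, r a c ≤ r a b + r b c) →
    (∀ c a b, r (c * a) (c * b) = r a b) →
    (∀ a b c e, r a b + r c e ≤ r a c + r b e + δ ∨ r a b + r c e ≤ r a e + r b c + δ) →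
    ∀ f g : Γ, (∀ R, ∃ N₀ : ℕ, ∀ n : ℕ, N₀ ≤ n → R ≤ r 1 (f ^ n)) →
    (∀ R, ∃ N₀ : ℕ, ∀ n : ℕ, N₀ ≤ n → FO (V := V) r R (f ^ n)) →
    (∃ κ : ℕ, ∀ m n : ℤ, r 1 (f ^ m) + r 1 (g * f ^ n) ≤ r (f ^ m) (g * f ^ n) + κ) →
    ∃ κ₁ : ℕ, ∀ R : ℕ, ∃ F : Fin 4 → Γ,
      (∀ i, R ≤ r 1 (F i)) ∧
      (∀ i j, i ≠ j → r 1 (F i) + r 1 (F j) ≤ r (F i) (F j) + 2 * κ₁) ∧
      (∀ i j, i ≠ j → r 1 (F i)⁻¹ + r 1 (F j)⁻¹ ≤ r (F i)⁻¹ (F j)⁻¹ + 2 * κ₁) ∧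
      (∀ i, FO (V := V) r R (F i))

/-- EXB: the extension data -/
def Stmt_EXB : Prop :=
  ∀ (V : Type) (G : SimpleGraph V) (ρ : V → V → ℕ) (d lam δ Δ : ℕ), Cor G ρ d lam δ Δ →
    ∀ (Γ : Type) [Group Γ] [MulAction Γ V],
    (∀ (γ : Γ) (x y : V), G.Adj x y → G.Adj (γ • x) (γ • y)) →
    (∃ F : Finset V, ∀ v : V, ∃ γ : Γ, ∃ u ∈ F, γ • u = v) →
    (∀ (γ : Γ) (x y : V), ρ (γ • x) (γ • y) = ρ x y) →
    ∀ (x₀ : V) (κ₁ : ℕ),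
    (∀ R : ℕ, ∃ F : Fin 4 → Γ,
      (∀ i, R ≤ ρ x₀ (F i • x₀)) ∧
      (∀ i j, i ≠ j → ρ x₀ (F i • x₀) + ρ x₀ (F j • x₀) ≤ ρ (F i • x₀) (F j • x₀) + 2 * κ₁) ∧
      (∀ i j, i ≠ j → ρ x₀ ((F i)⁻¹ • x₀) + ρ x₀ ((F j)⁻¹ • x₀) ≤
        ρ ((F i)⁻¹ • x₀) ((F j)⁻¹ • x₀) + 2 * κ₁) ∧
      (∀ i, FO (V := V) (fun a b : Γ => ρ (a • x₀) (b • x₀)) R (F i))) →
    ∃ (K E₀ D M : ℕ) (Ψ : V → V → Fin 4 → (G ≃g G)), Geo G ρ d lam δ Δ K E₀ D M Ψ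

/-! ## Percolation -/

/-- VCU: the two-point function is a kernel -/
def Stmt_VCU : Prop :=
  ∀ (V : Type) [Countable V] (G : SimpleGraph V) (d : ℕ),
    (∀ v, (G.neighborSet v).Finite ∧ (G.neighborSet v).ncard ≤ d) → 1 ≤ d →
    ∀ (p₀ p : ℝ), 0 < p₀ → p₀ ≤ p → p ≤ 1 → (∀ x : V, ∑' y, tau G p x y ≠ ⊤) →
    Ker G d (ENNReal.ofReal p₀) (tau G p)

/-- PERG: the Schur bound persists slightly above `p`, general weights -/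
def Stmt_PERG : Prop :=
  ∀ (V : Type) [Countable V] (G : SimpleGraph V) (d : ℕ),
    (∀ v, (G.neighborSet v).Finite ∧ (G.neighborSet v).ncard ≤ d) →
    ∀ (h : V → ℝ≥0∞) (A c : ℝ≥0∞), (∀ x, h x ≠ 0) → (∀ x, h x ≤ 1) →
    (∀ a b, G.Adj a b → h b ≤ A * h a) → A ≠ ⊤ → c ≠ ⊤ → ∀ (p p' : ℝ), 0 ≤ p → p ≤ p' →
    p' < 1 → ENNReal.ofReal ((p' - p) / (1 - p)) * c * d * A ≤ 1 / 2 →
    (∀ x : V, ∑' y, tau G p x y * h y ≤ c * h x) →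
    ∀ x : V, ∑' y, tau G p' x y * h y ≤ 2 * c * h x

/-! ## The ping-pong argument for abstract kernels -/

/-- DST: lower bound by the graph distance -/
def Stmt_DST : Prop :=
  ∀ (V : Type) (G : SimpleGraph V), G.Connected → ∀ (d : ℕ) (p₀ : ℝ≥0∞) (τ : V → V → ℝ≥0∞),
    Ker G d p₀ τ → ∀ x y : V, p₀ ^ G.dist x y ≤ τ x y

/-- CNC: concatenation -/
def Stmt_CNC : Prop :=
  ∀ (V : Type) (G : SimpleGraph V) (ρ : V → V → ℕ) (d lam δ Δ K : ℕ), Cor G ρ d lam δ Δ →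
    ∀ x w c g : V, gp ρ w x c K → gp ρ c w g K → cL K δ ≤ ρ w c →
    ρ x w + ρ w c + ρ c g ≤ ρ x g + 4 * K + δ

/-- PPS: the ping-pong bound (from DST, CNC) -/
def Stmt_PPS : Prop :=
  ∀ (V : Type) (G : SimpleGraph V) (ρ : V → V → ℕ) (d lam δ Δ K E₀ D M : ℕ)
    (Ψ : V → V → Fin 4 → (G ≃g G)), Geo G ρ d lam δ Δ K E₀ D M Ψ →
    ∀ (p₀ : ℝ≥0∞) (τ : V → V → ℝ≥0∞), Ker G d p₀ τ → ∀ (x z : V) (W : Set V),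
    (∀ w ∈ W, ∀ w₀ ∈ W, ∀ c c₀ g : V, Adm ρ K (cL K δ) x z w c g →
      Adm ρ K (cL K δ) x z w₀ c₀ g → ρ x w ≤ ρ x w₀ + cB K δ Δ) →
    p₀ ^ D * ∑' w : W, τ x w.1 ≤ 4 * M

/-- LVL: the sum over a sphere of the quasi-tree (from PPS) -/
def Stmt_LVL : Prop :=
  ∀ (V : Type) (G : SimpleGraph V) (ρ : V → V → ℕ) (d lam δ Δ K E₀ D M : ℕ)
    (Ψ : V → V → Fin 4 → (G ≃g G)), Geo G ρ d lam δ Δ K E₀ D M Ψ →
    ∀ (p₀ : ℝ≥0∞) (τ : V → V → ℝ≥0∞), Ker G d p₀ τ → ∀ (x : V) (n : ℕ),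
    p₀ ^ D * ∑' w : {w : V | ρ x w = n}, τ x w.1 ≤ 4 * M

/-- FXZ: the sum over the neighbourhood of a geodesic of the quasi-tree (from CNC, PPS) -/
def Stmt_FXZ : Prop :=
  ∀ (V : Type) (G : SimpleGraph V) (ρ : V → V → ℕ) (d lam δ Δ K E₀ D M : ℕ)
    (Ψ : V → V → Fin 4 → (G ≃g G)), Geo G ρ d lam δ Δ K E₀ D M Ψ →
    ∀ (p₀ : ℝ≥0∞) (τ : V → V → ℝ≥0∞), Ker G d p₀ τ → ∀ (x z : V),
    p₀ ^ D * ∑' w : {w : V | ρ x w + ρ w z ≤ ρ x z + 2 * cD δ Δ}, τ x w.1 ≤ 4 * M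

/-- DCY: exponential decay along the quasi-tree (from FXZ) -/
def Stmt_DCY : Prop :=
  ∀ (V : Type) (G : SimpleGraph V) (ρ : V → V → ℕ) (d lam δ Δ K E₀ D M : ℕ)
    (Ψ : V → V → Fin 4 → (G ≃g G)), Geo G ρ d lam δ Δ K E₀ D M Ψ →
    ∀ (p₀ : ℝ≥0∞), p₀ ≠ 0 → ∃ N : ℕ, 1 ≤ N ∧ ∀ (τ : V → V → ℝ≥0∞), Ker G d p₀ τ →
    ∀ (n : ℕ) (x z : V), n * N ≤ ρ x z →
      p₀ ^ D * ∑' w : {w : V | ρ w z ≤ 2 * Δ + 2 * δ}, τ x w.1 ≤ 4 * M * (1 / 2) ^ n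

/-- VSM: weighted sums (from LVL) -/
def Stmt_VSM : Prop :=
  ∀ (V : Type) (G : SimpleGraph V) (ρ : V → V → ℕ) (d lam δ Δ K E₀ D M : ℕ)
    (Ψ : V → V → Fin 4 → (G ≃g G)), Geo G ρ d lam δ Δ K E₀ D M Ψ →
    ∀ (p₀ : ℝ≥0∞) (τ : V → V → ℝ≥0∞), Ker G d p₀ τ → ∀ (r : ℝ≥0∞) (x : V),
    p₀ ^ D * ∑' y, τ x y * r ^ ρ x y ≤ 4 * M * (1 - r)⁻¹

/-- SER: a geometric series -/
def Stmt_SER : Prop :=
  ∀ (r : ℝ≥0∞) (N a : ℕ), 1 ≤ N → 1 / 2 < r ^ N →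
    ∑' i : ℕ, (r⁻¹) ^ i * (1 / 2 : ℝ≥0∞) ^ ((i - a) / N) ≠ ⊤

/-- WSH: the weighted Schur bound (from DCY, VSM, SER) -/
def Stmt_WSH : Prop :=
  ∀ (V : Type) (G : SimpleGraph V) (ρ : V → V → ℕ) (d lam δ Δ K E₀ D M : ℕ)
    (Ψ : V → V → Fin 4 → (G ≃g G)), Geo G ρ d lam δ Δ K E₀ D M Ψ →
    ∀ (p₀ : ℝ≥0∞), p₀ ≠ 0 → p₀ ≠ ⊤ → ∃ N : ℕ, 1 ≤ N ∧ ∀ r : ℝ≥0∞, r < 1 → 1 / 2 < r ^ N →
    ∃ c : ℝ≥0∞, c ≠ ⊤ ∧ ∀ (τ : V → V → ℝ≥0∞), Ker G d p₀ τ →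
      ∀ o x : V, ∑' y, τ x y * r ^ ρ y o ≤ c * r ^ ρ x o

/-! ## The theorem -/

/-- **MAINQ**: the theorem for graphs with a group action which is WPD on a quasi-tree -/
def Stmt_MAINQ : Prop :=
  ∀ (V : Type) (G : SimpleGraph V), G.Connected → (∀ v, (G.neighborSet v).Finite) →
    ∀ (Γ : Type) [Group Γ] [MulAction Γ V],
    (∀ (γ : Γ) (x y : V), G.Adj x y → G.Adj (γ • x) (γ • y)) →
    (∃ F : Finset V, ∀ v : V, ∃ γ : Γ, ∃ u ∈ F, γ • u = v) →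
    ∀ (Q : Type) (H : SimpleGraph Q) [MulAction Γ Q], H.Connected →
    (∀ (γ : Γ) (a b : Q), H.Adj a b → H.Adj (γ • a) (γ • b)) →
    (∃ Δ : ℕ, ∀ (a b : Q) (t : ℕ), t ≤ H.dist a b →
      ∃ z : Q, H.dist a z = t ∧ H.dist z b + t = H.dist a b ∧
        ∀ w : H.Walk a b, ∃ c ∈ w.support, H.dist c z ≤ Δ) →
    ∀ π : V → Q, (∀ (γ : Γ) (x : V), π (γ • x) = γ • π x) →
    ∀ (x₀ : V) (f g : Γ),
    (∀ R, ∃ N₀ : ℕ, ∀ n : ℕ, N₀ ≤ n → R ≤ H.dist (π x₀) (f ^ n • π x₀)) →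
    (∀ R, ∃ N₀ : ℕ, ∀ n : ℕ, N₀ ≤ n → ∀ x : V,
      {y : V | ∃ h : Γ, H.dist (π x₀) (h • π x₀) ≤ R ∧
        H.dist (f ^ n • π x₀) ((h * f ^ n) • π x₀) ≤ R ∧ h • x = y}.Finite) →
    (∃ κ : ℕ, ∀ m n : ℤ, H.dist (π x₀) (f ^ m • π x₀) + H.dist (π x₀) ((g * f ^ n) • π x₀) ≤
      H.dist (f ^ m • π x₀) ((g * f ^ n) • π x₀) + κ) →
    ∀ q : ℝ, 1 < q →
      sSup {p : ℝ | 0 ≤ p ∧ p ≤ 1 ∧ ∀ o : V,
          Measure.infinitePi (fun _ : Sym2 V => (volume : Measure unitInterval))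
            {ω : Sym2 V → unitInterval |
              Set.Infinite {v : V | ∃ w : G.Walk o v, ∀ e ∈ w.edges, ((ω e : unitInterval) : ℝ) < p}} = 0}
      < sSup {p : ℝ | 0 ≤ p ∧ p ≤ 1 ∧ ∃ C : ℝ, ∀ (S T : Finset V) (f : V → ℝ),
          ∑ u ∈ T, |∑ v ∈ S,
              (Measure.infinitePi (fun _ : Sym2 V => (volume : Measure unitInterval))
                {ω : Sym2 V → unitInterval |
                  ∃ w : G.Walk u v, ∀ e ∈ w.edges, ((ω e : unitInterval) : ℝ) < p}).toReal * f v| ^ q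
            ≤ C * ∑ v ∈ S, |f v| ^ q}

end Pool.L2Q
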