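import Pool.Agent.Work.MP_23451d_qt.Interface

/-!
# LVL: the sum over a sphere of the quasi-tree (MP_23451d_pr)
-/

set_option autoImplicit false

namespace Pool.L2Q

open MeasureTheory SimpleGraph Pool.L2B
open scoped ENNReal

theorem stmt_LVL (hPPS : Stmt_PPS) : Stmt_LVL := by
  intro V G ρ d lam δ Δ K E₀ D M Ψ hG p₀ τ hK x n
  refine hPPS V G ρ d lam δ Δ K E₀ D M Ψ hG p₀ τ hK x x {w : V | ρ x w = n} ?_
  intro w hw w₀ hw₀ c c₀ g _ _
  simp only [Set.mem_ofPred_eq] at hw hw₀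
  omega

end Pool.L2Q
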