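import Pool.Agent.Work.MP_23451d_qt.Interface

/-!
# Assembly (MP_23451d_pr, WPD actions on quasi-trees)
-/

set_option autoImplicit false

namespace Pool.L2Q

open MeasureTheory SimpleGraph Pool.L2B
open scoped ENNReal

/-- an automorphism from the group action -/
def aut {V Γ : Type} (G : SimpleGraph V) [Group Γ] [MulAction Γ V]
    (h : ∀ (γ : Γ) (x y : V), G.Adj x y → G.Adj (γ • x) (γ • y)) (γ : Γ) : G ≃g G where
  toEquiv := MulAction.toPerm γ
  map_rel_iff' := by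
    intro a b
    constructor
    · intro h1
      have h2 := h γ⁻¹ _ _ h1
      simpa using h2
    · exact h γ a b

/-- small parameters -/
theorem small_case {V : Type} [Countable V] (G : SimpleGraph V) (d : ℕ)
    (hdeg : ∀ v, (G.neighborSet v).Finite ∧ (G.neighborSet v).ncard ≤ d) (p₀ : ℝ)
    (hp₀ : p₀ = 1 / (4 * ((d : ℝ) + 1))) (q : ℝ) (hq : 1 < q) :
    ∃ C : ℝ, ∀ (S T : Finset V) (f : V → ℝ),
      ∑ u ∈ T, |∑ v ∈ S, (tau G (2 * p₀) u v).toReal * f v| ^ q ≤ C * ∑ v ∈ S, |f v| ^ q := by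
  have hTAU := stmt_TAU stmt_LAB
  have hLEX := stmt_LEX
  have hEXP := stmt_EXP stmt_LAB stmt_SIG stmt_CME hLEX
  have hCUT := stmt_CUT stmt_LAB stmt_SIG stmt_CME hTAU stmt_LIM hLEX hEXP
  have hCHI := stmt_CHI hTAU hCUT
  have hd0 : (0 : ℝ) ≤ d := Nat.cast_nonneg d
  have hp₀pos : 0 < p₀ := by rw [hp₀]; positivity
  have hp₀le : p₀ ≤ 1 / 4 := by
    rw [hp₀]
    apply one_div_le_one_div_of_le (by norm_num)
    linarith
  have hx : ∀ x : V, ∑' y, tau G (2 * p₀) x y ≤ ((1 : ℕ) : ℝ≥0∞) / (1 - 1 / 2) := by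
    refine hCHI V G (2 * p₀) (by linarith) (by linarith) (fun v => (hdeg v).1) 1 (1 / 2) ?_ ?_
    · rw [one_div]
      exact ENNReal.inv_lt_one.mpr (by norm_num)
    intro x
    refine ⟨{x}, Finset.mem_singleton_self x, by simp, ?_⟩
    unfold phi
    have hinj : Function.Injective (fun e : bdE G (({x} : Finset V) : Set V) =>
        (⟨e.1.2, by
          have h := e.2.2.2
          have h1 : e.1.1 = x := by simpa using e.2.1
          rw [h1] at h
          exact h⟩ : G.neighborSet x)) := by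
      intro a b hab
      have ha : a.1.1 = x := by simpa using a.2.1
      have hb : b.1.1 = x := by simpa using b.2.1
      have h2 : a.1.2 = b.1.2 := congrArg Subtype.val hab
      exact Subtype.ext (Prod.ext (ha.trans hb.symm) h2)
    calc ∑' e : bdE G (({x} : Finset V) : Set V),
          ENNReal.ofReal (2 * p₀) * tau (within G (({x} : Finset V) : Set V)) (2 * p₀) x e.1.1
        ≤ ∑' e : bdE G (({x} : Finset V) : Set V), ENNReal.ofReal (2 * p₀) := by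
          refine ENNReal.tsum_le_tsum fun e => ?_
          calc _ ≤ ENNReal.ofReal (2 * p₀) * 1 := by
                gcongr
                exact (hTAU V _ G (2 * p₀) (2 * p₀) x e.1.1).1
            _ = _ := mul_one _
      _ = ∑' e : bdE G (({x} : Finset V) : Set V), (fun _ : G.neighborSet x =>
            ENNReal.ofReal (2 * p₀)) ⟨e.1.2, by
          have h := e.2.2.2
          have h1 : e.1.1 = x := by simpa using e.2.1
          rw [h1] at h
          exact h⟩ := rfl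
      _ ≤ ∑' _ : G.neighborSet x, ENNReal.ofReal (2 * p₀) :=
          ENNReal.tsum_comp_le_tsum_of_injective hinj _
      _ = ((G.neighborSet x).ncard : ℝ≥0∞) * ENNReal.ofReal (2 * p₀) := by
          have hfin : Finite (G.neighborSet x) := (hdeg x).1
          rw [ENNReal.tsum_const, ENat.card_coe_set_eq, ((hdeg x).1).cast_ncard_eq.symm]
          rfl
      _ ≤ (d : ℝ≥0∞) * ENNReal.ofReal (2 * p₀) := by
          gcongr
          exact (hdeg x).2
      _ ≤ 1 / 2 := by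
          have h1 : (1 : ℝ≥0∞) / 2 = ENNReal.ofReal (1 / 2) := by
            rw [ENNReal.ofReal_div_of_pos two_pos]
            simp
          rw [h1, ← ENNReal.ofReal_natCast, ← ENNReal.ofReal_mul hd0]
          apply ENNReal.ofReal_le_ofReal
          rw [hp₀, ← mul_assoc, mul_one_div, div_le_div_iff₀ (by positivity) two_pos]
          linarith
  have hx2 : ∀ x : V, ∑' y, tau G (2 * p₀) x y ≤ 2 := by
    intro x
    refine (hx x).trans (le_of_eq ?_)
    rw [Nat.cast_one]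
    simp
  refine stmt_SCH V (tau G (2 * p₀)) (fun x y => (hTAU V G G (2 * p₀) (2 * p₀) x y).2.2.1) q hq (fun _ => 1)
    (fun _ => one_pos) 2 (by norm_num) ?_ ?_
  · intro x
    simp only [Real.one_rpow, ENNReal.ofReal_one, mul_one]
    exact hx2 x
  · intro x
    simp only [Real.one_rpow, ENNReal.ofReal_one, mul_one]
    exact hx2 x

/-- the analytic conclusion from a uniform weighted Schur bound -/
theorem conclude (hVCU : Stmt_VCU) (hPERG : Stmt_PERG) (hDST : Stmt_DST) (V : Type) [Countable V]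
    (G : SimpleGraph V) (hconn : G.Connected) (hqt : QT G) (d lam : ℕ) (hd : 1 ≤ d)
    (hdeg : ∀ v, (G.neighborSet v).Finite ∧ (G.neighborSet v).ncard ≤ d)
    (ρ : V → V → ℕ) (hself : ∀ x, ρ x x = 0)
    (hlip : ∀ o a b, G.Adj a b → ρ a o ≤ lam + ρ b o) (x₀ : V)
    (hunb : ∀ R, ∃ x, R ≤ ρ x x₀)
    (hW : ∀ (p₀ : ℝ≥0∞), p₀ ≠ 0 → p₀ ≠ ⊤ → ∃ N : ℕ, 1 ≤ N ∧ ∀ r : ℝ≥0∞, r < 1 → 1 / 2 < r ^ N →
      ∃ c : ℝ≥0∞, c ≠ ⊤ ∧ ∀ (τ : V → V → ℝ≥0∞), Ker G d p₀ τ →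
        ∀ o x : V, ∑' y, τ x y * r ^ ρ y o ≤ c * r ^ ρ x o)
    (q : ℝ) (hq : 1 < q) :
    pc G < sSup {p : ℝ | 0 ≤ p ∧ p ≤ 1 ∧ ∃ C : ℝ, ∀ (S T : Finset V) (f : V → ℝ),
      ∑ u ∈ T, |∑ v ∈ S, (tau G p u v).toReal * f v| ^ q ≤ C * ∑ v ∈ S, |f v| ^ q} := by
  have hTAU := stmt_TAU stmt_LAB
  have hLEX := stmt_LEX
  have hEXP := stmt_EXP stmt_LAB stmt_SIG stmt_CME hLEX
  have hCUT := stmt_CUT stmt_LAB stmt_SIG stmt_CME hTAU stmt_LIM hLEX hEXP
  have hCHI := stmt_CHI hTAU hCUT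
  have hEXO := stmt_EXO stmt_LAB stmt_SIG stmt_CME hLEX
  have hDCTI := stmt_DCTI stmt_LAB stmt_SIG stmt_CME hEXO stmt_BON
  have hDCTL := stmt_DCTL hTAU stmt_SIG stmt_CME hDCTI
  have hSHA := stmt_SHA (stmt_INV stmt_CME stmt_SIG) hDCTL hCHI
  have hlf : ∀ v, (G.neighborSet v).Finite := fun v => (hdeg v).1
  have hgood : ∀ p : ℝ, pc G < p → 0 ≤ p → p ≤ 1 → (∃ C : ℝ, ∀ (S T : Finset V) (f : V → ℝ),
      ∑ u ∈ T, |∑ v ∈ S, (tau G p u v).toReal * f v| ^ q ≤ C * ∑ v ∈ S, |f v| ^ q) →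
      pc G < sSup {p : ℝ | 0 ≤ p ∧ p ≤ 1 ∧ ∃ C : ℝ, ∀ (S T : Finset V) (f : V → ℝ),
      ∑ u ∈ T, |∑ v ∈ S, (tau G p u v).toReal * f v| ^ q ≤ C * ∑ v ∈ S, |f v| ^ q} := by
    intro p h1 h2 h3 h4
    exact lt_of_lt_of_le h1 (le_csSup ⟨1, fun x hx => hx.2.1⟩ ⟨h2, h3, h4⟩)
  have hsymm : ∀ p : ℝ, ∀ x y : V, tau G p x y = tau G p y x := fun p x y =>
    (hTAU V G G p p x y).2.2.1
  obtain ⟨p₀, hp₀⟩ : ∃ p₀ : ℝ, p₀ = 1 / (4 * ((d : ℝ) + 1)) := ⟨_, rfl⟩
  have hd0 : (0 : ℝ) ≤ d := Nat.cast_nonneg d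
  have hp₀pos : 0 < p₀ := by rw [hp₀]; positivity
  have hp₀le : p₀ ≤ 1 / 4 := by
    rw [hp₀]
    apply one_div_le_one_div_of_le (by norm_num)
    linarith
  rcases lt_or_ge (pc G) (2 * p₀) with hcase | hcase
  · exact hgood (2 * p₀) hcase (by linarith) (by linarith) (small_case G d hdeg p₀ hp₀ q hq)
  have hpc0 : p₀ < pc G := by linarith
  obtain ⟨N, hN, hWN⟩ := hW (ENNReal.ofReal p₀) (by simpa using hp₀pos) ENNReal.ofReal_ne_top
  obtain ⟨R, hR0, hR1, hRq, hRq'⟩ := exists_rho q N (1 / 2) (by norm_num)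
  have hq'0 : 0 < q / (q - 1) := div_pos (by linarith) (by linarith)
  -- the bound for one exponent
  have key : ∀ s : ℝ, 0 < s → 1 / 2 < (R ^ s) ^ N → ∃ c : ℝ≥0∞, c ≠ ⊤ ∧
      ∀ p : ℝ, p₀ ≤ p → p < pc G → p ≤ 1 → ∀ x : V,
        ∑' y, tau G p x y * (ENNReal.ofReal (R ^ s)) ^ ρ y x₀ ≤
          c * (ENNReal.ofReal (R ^ s)) ^ ρ x x₀ := by
    intro s hs hts
    have h1 : (1 : ℝ≥0∞) / 2 = ENNReal.ofReal (1 / 2) := by
      rw [ENNReal.ofReal_div_of_pos two_pos]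
      simp
    obtain ⟨c, hc, h2⟩ := hWN (ENNReal.ofReal (R ^ s))
      (by
        rw [← ENNReal.ofReal_one]
        exact (ENNReal.ofReal_lt_ofReal_iff one_pos).mpr (Real.rpow_lt_one hR0.le hR1 hs))
      (by
        rw [h1, ← ENNReal.ofReal_pow (Real.rpow_nonneg hR0.le s)]
        exact (ENNReal.ofReal_lt_ofReal_iff (pow_pos (Real.rpow_pos_of_pos hR0 s) N)).mpr hts)
    refine ⟨c, hc, fun p hp hp' hp1 x => ?_⟩
    exact h2 (tau G p) (hVCU V G d hdeg hd p₀ p hp₀pos hp hp1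
      (hSHA V G hconn hlf hqt p (hp₀pos.le.trans hp) hp')) x₀ x
  obtain ⟨c₁, hc₁, k₁⟩ := key q (by linarith) hRq
  obtain ⟨c₂, hc₂, k₂⟩ := key (q / (q - 1)) hq'0 hRq'
  -- `pc < 1`
  have hpc_lt : pc G < 1 := by
    by_contra hcon
    push Not at hcon
    set r : ℝ≥0∞ := ENNReal.ofReal (R ^ q) with hr
    have hr1 : r < 1 := by
      rw [hr, ← ENNReal.ofReal_one]
      exact (ENNReal.ofReal_lt_ofReal_iff one_pos).mpr (Real.rpow_lt_one hR0.le hR1 (by linarith))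
    have htend : Filter.Tendsto (fun n : ℕ => c₁ * r ^ n) Filter.atTop (nhds 0) := by
      have h1 := ENNReal.tendsto_pow_atTop_nhds_zero_of_lt_one hr1
      have h2 := ENNReal.Tendsto.const_mul h1 (Or.inr hc₁)
      simpa using h2
    have hev := htend.eventually (gt_mem_nhds (show (0 : ℝ≥0∞) < ENNReal.ofReal (1 / 2) by simp))
    obtain ⟨n, hn⟩ := hev.exists
    obtain ⟨x, hx⟩ := hunb n
    set k := G.dist x x₀ with hk
    obtain ⟨p, hp⟩ : ∃ p : ℝ, p = 1 - 1 / (4 * ((k : ℝ) + 1)) := ⟨_, rfl⟩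
    have hk0 : (0 : ℝ) ≤ k := Nat.cast_nonneg k
    have hsmall : 1 / (4 * ((k : ℝ) + 1)) ≤ 1 / 4 := by
      apply one_div_le_one_div_of_le (by norm_num)
      linarith
    have hpos : 0 < 1 / (4 * ((k : ℝ) + 1)) := by positivity
    have hp1 : p < 1 := by linarith
    have hp34 : 3 / 4 ≤ p := by linarith
    have hker := hVCU V G d hdeg hd p p (by linarith) le_rfl hp1.le
      (hSHA V G hconn hlf hqt p (by linarith) (by linarith))
    have h1 := hDST V G hconn d (ENNReal.ofReal p) (tau G p) hker x x₀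
    have h2 := k₁ p (by linarith) (by linarith) hp1.le x
    have h3 : tau G p x x₀ ≤ ∑' y, tau G p x y * r ^ ρ y x₀ := by
      have h4 := ENNReal.le_tsum (f := fun y => tau G p x y * r ^ ρ y x₀) x₀
      simp only [hself, pow_zero, mul_one] at h4
      exact h4
    have h5 : c₁ * r ^ ρ x x₀ ≤ c₁ * r ^ n :=
      mul_le_mul' le_rfl (pow_le_pow_right_of_le_one' hr1.le hx)
    have h6 : ENNReal.ofReal p ^ k < ENNReal.ofReal (1 / 2) :=
      lt_of_le_of_lt (h1.trans (h3.trans (h2.trans h5))) hn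
    rw [← ENNReal.ofReal_pow (by linarith), ENNReal.ofReal_lt_ofReal_iff (by norm_num)] at h6
    have h7 := one_add_mul_le_pow (show (-2 : ℝ) ≤ -(1 / (4 * ((k : ℝ) + 1))) by linarith) k
    have h8 : 1 + -(1 / (4 * ((k : ℝ) + 1))) = p := by rw [hp]; ring
    rw [h8] at h7
    have h9 : (k : ℝ) * (1 / (4 * ((k : ℝ) + 1))) ≤ 1 / 4 := by
      rw [mul_one_div, div_le_div_iff₀ (by positivity) (by norm_num)]
      linarith
    have h10 : (k : ℝ) * -(1 / (4 * ((k : ℝ) + 1))) = -((k : ℝ) * (1 / (4 * ((k : ℝ) + 1)))) := by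
      ring
    rw [h10] at h7
    linarith
  -- the small window
  set A : ℝ → ℝ≥0∞ := fun s => ((ENNReal.ofReal (R ^ s))⁻¹) ^ lam with hA
  have hAtop : ∀ s, A s ≠ ⊤ := by
    intro s
    refine ENNReal.pow_ne_top (ENNReal.inv_ne_top.mpr ?_)
    have := Real.rpow_pos_of_pos hR0 s
    simpa using this
  have hWt : ∀ (c : ℝ≥0∞), c ≠ ⊤ → ∀ s : ℝ, c * d * A s ≠ ⊤ := by
    intro c hc s
    exact ENNReal.mul_ne_top (ENNReal.mul_ne_top hc (ENNReal.natCast_ne_top d)) (hAtop s)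
  obtain ⟨ε₁, hε₁, w₁⟩ := exists_eps _ (hWt c₁ hc₁ q)
  obtain ⟨ε₂, hε₂, w₂⟩ := exists_eps _ (hWt c₂ hc₂ (q / (q - 1)))
  set ε : ℝ := min ε₁ ε₂ with hε
  have hεpos : 0 < ε := lt_min hε₁ hε₂
  have h1pc : 0 < 1 - pc G := by linarith
  obtain ⟨δ, hδ0, hδ1, hδ2, hδ3⟩ : ∃ δ : ℝ, 0 < δ ∧ δ ≤ pc G - p₀ ∧ δ < 1 - pc G ∧
      2 * δ ≤ ε * (1 - pc G) := by
    refine ⟨min (pc G - p₀) (min ((1 - pc G) / 2) (ε * (1 - pc G) / 2)), ?_, min_le_left _ _, ?_, ?_⟩
    · refine lt_min (by linarith) (lt_min (by linarith) (by positivity))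
    · exact lt_of_le_of_lt ((min_le_right _ _).trans (min_le_left _ _)) (by linarith)
    · have := (min_le_right (pc G - p₀) (min ((1 - pc G) / 2) (ε * (1 - pc G) / 2))).trans
        (min_le_right _ _)
      linarith
  have hp1 : p₀ ≤ pc G - δ := by linarith
  have hp2 : pc G - δ < pc G := by linarith
  have hp0' : 0 ≤ pc G - δ := hp₀pos.le.trans hp1
  have hfrac : (pc G + δ - (pc G - δ)) / (1 - (pc G - δ)) ≤ ε := by
    rw [div_le_iff₀ (by linarith)]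
    have : ε * (1 - pc G) ≤ ε * (1 - (pc G - δ)) := by
      apply mul_le_mul_of_nonneg_left _ hεpos.le
      linarith
    linarith
  have hwin : ∀ (c : ℝ≥0∞) (s ε' : ℝ), ε ≤ ε' →
      ENNReal.ofReal ε' * (c * d * A s) ≤ 1 / 2 →
      ENNReal.ofReal ((pc G + δ - (pc G - δ)) / (1 - (pc G - δ))) * c * d * A s ≤ 1 / 2 := by
    intro c s ε' h1 h2
    refine le_trans ?_ h2
    rw [mul_assoc, mul_assoc, ← mul_assoc c]
    gcongr
    exact hfrac.trans h1
  have hpow : ∀ (s : ℝ) (n : ℕ), ENNReal.ofReal ((R ^ n) ^ s) = (ENNReal.ofReal (R ^ s)) ^ n := by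
    intro s n
    rw [← ENNReal.ofReal_pow (Real.rpow_nonneg hR0.le s), ← Real.rpow_natCast, ← Real.rpow_mul hR0.le,
      mul_comm, Real.rpow_mul hR0.le, Real.rpow_natCast]
  have per : ∀ s : ℝ, 0 < s → ∀ c : ℝ≥0∞, c ≠ ⊤ →
      ENNReal.ofReal ((pc G + δ - (pc G - δ)) / (1 - (pc G - δ))) * c * d * A s ≤ 1 / 2 →
      (∀ p : ℝ, p₀ ≤ p → p < pc G → p ≤ 1 → ∀ x : V,
        ∑' y, tau G p x y * (ENNReal.ofReal (R ^ s)) ^ ρ y x₀ ≤
          c * (ENNReal.ofReal (R ^ s)) ^ ρ x x₀) →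
      ∀ x : V, ∑' y, tau G (pc G + δ) x y * ENNReal.ofReal ((R ^ ρ y x₀) ^ s) ≤
        2 * c * ENNReal.ofReal ((R ^ ρ x x₀) ^ s) := by
    intro s hs c hc hw hk x
    simp only [hpow]
    have hr0 : ENNReal.ofReal (R ^ s) ≠ 0 := by
      have := Real.rpow_pos_of_pos hR0 s
      simpa using this
    have hr1 : ENNReal.ofReal (R ^ s) ≤ 1 := by
      rw [← ENNReal.ofReal_one]
      exact ENNReal.ofReal_le_ofReal (Real.rpow_lt_one hR0.le hR1 hs).le
    refine hPERG V G d hdeg (fun y => (ENNReal.ofReal (R ^ s)) ^ ρ y x₀) (A s) c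
      (fun y => pow_ne_zero _ hr0) (fun y => pow_le_one' hr1 _) ?_ (hAtop s) hc (pc G - δ)
      (pc G + δ) hp0' (by linarith) (by linarith) hw (hk _ hp1 hp2 (by linarith)) x
    intro a b hab
    have h1 := hlip x₀ a b hab
    have h2 : (ENNReal.ofReal (R ^ s)) ^ (lam + ρ b x₀) ≤ (ENNReal.ofReal (R ^ s)) ^ ρ a x₀ :=
      pow_le_pow_right_of_le_one' hr1 h1
    calc (ENNReal.ofReal (R ^ s)) ^ ρ b x₀
        = A s * (ENNReal.ofReal (R ^ s)) ^ (lam + ρ b x₀) := by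
          rw [pow_add, ← mul_assoc, hA, ← mul_pow, ENNReal.inv_mul_cancel hr0 ENNReal.ofReal_ne_top,
            one_pow, one_mul]
      _ ≤ A s * (ENNReal.ofReal (R ^ s)) ^ ρ a x₀ := by gcongr
  refine hgood (pc G + δ) (by linarith) (by linarith) (by linarith) ?_
  refine stmt_SCH V (tau G (pc G + δ)) (hsymm _) q hq (fun x => R ^ ρ x x₀)
    (fun x => pow_pos hR0 _) (2 * max c₁ c₂)
    (ENNReal.mul_ne_top (by norm_num) (max_ne_top hc₁ hc₂)) ?_ ?_
  · intro x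
    refine (per q (by linarith) c₁ hc₁ (hwin c₁ q ε₁ (min_le_left _ _) w₁) k₁ x).trans ?_
    gcongr
    exact le_max_left _ _
  · intro x
    refine (per (q / (q - 1)) hq'0 c₂ hc₂ (hwin c₂ _ ε₂ (min_le_right _ _) w₂) k₂ x).trans ?_
    gcongr
    exact le_max_right _ _

theorem mainq (hCORX : Stmt_CORX) (hFEL : Stmt_FEL) (hEXB : Stmt_EXB) (hVCU : Stmt_VCU)
    (hPERG : Stmt_PERG) (hDST : Stmt_DST) (hWSH : Stmt_WSH) : Stmt_MAINQ := by
  intro V G hconn hlf Γ _ _ hadj hqt Q H _ hH hHadj hbot π hπ x₀ f g hlox hwpd hind q hq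
  have hcount : Countable V := stmt_CNT V G hconn hlf
  have hQT : QT G := by
    obtain ⟨F, hF⟩ := hqt
    refine ⟨F, fun v => ?_⟩
    obtain ⟨γ, u, hu, h⟩ := hF v
    exact ⟨aut G hadj γ, u, hu, h⟩
  obtain ⟨hinv, d, lam, δ, Δ, hcor⟩ := hCORX V G hconn hlf Γ hadj hqt Q H hH hHadj hbot π hπ
  set ρ : V → V → ℕ := fun x y => H.dist (π x) (π y) with hρ
  set r : Γ → Γ → ℕ := fun a b => ρ (a • x₀) (b • x₀) with hr
  have hr1 : ∀ a b, r a b = H.dist (a • π x₀) (b • π x₀) := by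
    intro a b
    simp only [hr, hρ, hπ]
  have hr2 : ∀ b, r 1 b = H.dist (π x₀) (b • π x₀) := by
    intro b
    rw [hr1, one_smul]
  obtain ⟨κ₁, hκ₁⟩ := hFEL Γ V r δ (fun a => hcor.self _) (fun a b => hcor.symm _ _)
    (fun a b c => hcor.tri _ _ _)
    (fun c a b => by
      simp only [hr, mul_smul]
      exact hinv c _ _)
    (fun a b c e => hcor.hyp _ _ _ _) f g
    (fun R => by
      obtain ⟨N₀, h⟩ := hlox R
      refine ⟨N₀, fun n hn => ?_⟩
      rw [hr2]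
      exact h n hn)
    (fun R => by
      obtain ⟨N₀, h⟩ := hwpd R
      refine ⟨N₀, fun n hn x => ?_⟩
      simp only [hr1, one_smul]
      exact h n hn x)
    (by
      obtain ⟨κ, h⟩ := hind
      refine ⟨κ, fun m n => ?_⟩
      rw [hr2, hr2, hr1]
      exact h m n)
  obtain ⟨K, E₀, D, M, Ψ, hgeo⟩ := hEXB V G ρ d lam δ Δ hcor Γ hadj hqt hinv x₀ κ₁
    (fun R => by
      obtain ⟨F, f1, f2, f3, f4⟩ := hκ₁ R
      refine ⟨F, fun i => ?_, fun i j hij => ?_, fun i j hij => ?_, f4⟩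
      · have := f1 i
        simpa only [hr, one_smul] using this
      · have := f2 i j hij
        simpa only [hr, one_smul] using this
      · have := f3 i j hij
        simpa only [hr, one_smul] using this)
  refine conclude hVCU hPERG hDST V G hconn hQT d lam hcor.hd hcor.deg ρ hcor.self ?_ x₀ ?_
    (hWSH V G ρ d lam δ Δ K E₀ D M Ψ hgeo) q hq
  · intro o a b hab
    exact (hcor.tri a b o).trans (Nat.add_le_add_right (hcor.lip a b hab) _)
  · intro R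
    obtain ⟨N₀, h⟩ := hlox R
    refine ⟨f ^ N₀ • x₀, ?_⟩
    have h1 := h N₀ le_rfl
    rw [hcor.symm]
    simp only [hρ, hπ]
    exact h1

end Pool.L2Q
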